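import Pool.Agent.H888R2.KB.Defs
import Pool.Agent.H888R2.KC.F5

/-!
# A1: structure constants of so(m), left multiplication
-/

set_option autoImplicit false

namespace Pool.Agent.H888R2.KB

open MeasureTheory Set Matrix Pool.Agent.H888R2.KC Pool.Agent.H888R2.KT
open scoped ENNReal InnerProductSpace
open Pool.Agent.H212R2.KLS (mu Bdd ev E V OpLe lm Dens toM ofM mv)

namespace A1x

open Pool.Agent.H888R2.KC.F5x

theorem toM_inj {m n : ℕ} {x y : E m n} (h : toM x = toM y) : x = y := by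
  ext p
  have := congrFun (congrFun h p.1) p.2
  exact this

theorem toM_lml {m n : ℕ} (K : Matrix (Fin m) (Fin m) ℝ) (x : E m n) :
    toM (lml K x) = K * toM x := rfl

theorem toM_sub {m n : ℕ} (x y : E m n) : toM (x - y) = toM x - toM y := rfl

theorem toM_add {m n : ℕ} (x y : E m n) : toM (x + y) = toM x + toM y := rfl

theorem toM_smul {m n : ℕ} (c : ℝ) (x : E m n) : toM (c • x) = c • toM x := rfl

theorem toM_sum {m n : ℕ} {κ : Type*} (s : Finset κ) (f : κ → E m n) :
    toM (∑ k ∈ s, f k) = ∑ k ∈ s, toM (f k) := by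
  classical
  induction s using Finset.induction_on with
  | empty => rfl
  | insert j t hj ih => rw [Finset.sum_insert hj, Finset.sum_insert hj, toM_add, ih]

theorem toM_sum_lml {m n : ℕ} (s : KI m → ℝ) (x : E m n) :
    toM (∑ l, s l • lml (Km ℝ l) x) = (∑ l, s l • Km ℝ l) * toM x := by
  rw [toM_sum, Matrix.sum_mul]
  refine Finset.sum_congr rfl fun l _ => ?_
  rw [toM_smul, toM_lml, Matrix.smul_mul]

theorem trace_Km {m : ℕ} (k : KI m) : (Km ℝ k).trace = 0 := by
  have h := congrArg Matrix.trace (Km_skew (𝕜 := ℝ) k)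
  rw [Matrix.trace_conjTranspose, Matrix.trace_neg, star_trivial] at h
  linarith

end A1x

open A1x Pool.Agent.H888R2.KC.F5x

theorem alg (m n : ℕ) (hm : 3 ≤ m) : ∃ (c : KI m → KI m → KI m → ℝ) (κ : ℝ), (m : ℝ) - 2 ≤ κ ∧
    (∀ i j k, c j i k = - c i j k) ∧ (∀ i j k, c i k j = - c i j k) ∧
    (∀ i j, ∀ x : E m n, lml (Km ℝ i) (lml (Km ℝ j) x) - lml (Km ℝ j) (lml (Km ℝ i) x) =
      ∑ k, c i j k • lml (Km ℝ k) x) ∧
    (∀ k, ∀ x : E m n, ∑ l, (∑ i, ∑ j, c i j k * c i j l) • lml (Km ℝ l) x =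
      κ • lml (Km ℝ k) x) := by
  obtain ⟨κ, hκ, hk⟩ := kil ℝ m
  refine ⟨cc ℝ, κ, hκ, cc1, cc2, ?_, ?_⟩
  · intro i j x
    apply toM_inj
    rw [toM_sum_lml, ← br_Km, toM_sub, toM_lml, toM_lml, toM_lml, toM_lml]
    unfold br
    rw [Matrix.sub_mul, Matrix.mul_assoc, Matrix.mul_assoc]
  · intro k x
    apply toM_inj
    obtain ⟨s, hs⟩ := hk k
    have h0 : s = 0 := by
      have h1 := congrArg Matrix.trace hs
      rw [Matrix.trace_sum, Matrix.trace_add, Matrix.trace_smul, Matrix.trace_smul,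
        Matrix.trace_one, Fintype.card_fin, trace_Km, smul_zero, zero_add,
        Finset.sum_eq_zero (fun l _ => by rw [Matrix.trace_smul, trace_Km, smul_zero]),
        smul_eq_mul] at h1
      have h2 : (m : ℝ) ≠ 0 := by
        have : (3 : ℝ) ≤ m := by exact_mod_cast hm
        linarith
      rcases mul_eq_zero.1 h1.symm with h3 | h3
      · exact h3
      · exact absurd h3 h2
    rw [toM_sum_lml, hs, h0, zero_smul, add_zero, toM_smul, toM_lml, Matrix.smul_mul]

end Pool.Agent.H888R2.KB
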