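import Pool.Agent.H888R2.KB.Defs
import Pool.Agent.H888R2.KC.F5

/-!
# A2: Casimir identity
-/

set_option autoImplicit false

namespace Pool.Agent.H888R2.KB

open MeasureTheory Set Matrix Pool.Agent.H888R2.KC Pool.Agent.H888R2.KT
open scoped ENNReal InnerProductSpace
open Pool.Agent.H212R2.KLS (mu Bdd ev E V OpLe lm Dens toM ofM mv)

namespace A2x

open Pool.Agent.H888R2.KC.F5x

theorem toM_lml {m n : ℕ} (K : Matrix (Fin m) (Fin m) ℝ) (x : E m n) :
    toM (lml K x) = K * toM x := rfl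

theorem inner_tr {m n : ℕ} (x y : E m n) : ⟪x, y⟫_ℝ = ((toM x)ᵀ * toM y).trace := by
  rw [PiLp.inner_apply, Fintype.sum_prod_type, Matrix.trace, Finset.sum_comm]
  refine Finset.sum_congr rfl fun j _ => ?_
  rw [Matrix.diag_apply, Matrix.mul_apply]
  refine Finset.sum_congr rfl fun i _ => ?_
  rw [Matrix.transpose_apply]
  simp [mul_comm]

theorem sum_sq (m : ℕ) : ∑ k : KI m, Km ℝ k * 1 * Km ℝ k =
    ((1 - (m : ℝ)) / 2) • (1 : Matrix (Fin m) (Fin m) ℝ) := by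
  rw [sum_KMK, Matrix.transpose_one, Matrix.trace_one, Fintype.card_fin]
  have h : (RCLike.I : ℝ) = 0 := RCLike.I_to_real
  rw [h]
  ext p q
  simp only [Matrix.sub_apply, Matrix.smul_apply, smul_eq_mul]
  ring

theorem norm_Km {m n : ℕ} (k : KI m) (w : E m n) :
    ‖lml (Km ℝ k) w‖ ^ 2 = - ((toM w)ᵀ * (Km ℝ k * 1 * Km ℝ k) * toM w).trace := by
  have hs : (Km ℝ k)ᵀ = - Km ℝ k := by
    have := Km_skew (𝕜 := ℝ) k
    rwa [Matrix.conjTranspose_eq_transpose_of_trivial] at this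
  rw [← real_inner_self_eq_norm_sq, inner_tr, toM_lml, Matrix.transpose_mul, hs, Matrix.mul_neg,
    Matrix.neg_mul, Matrix.trace_neg, Matrix.mul_one]
  simp only [Matrix.mul_assoc]

end A2x

open A2x Pool.Agent.H888R2.KC.F5x

theorem cas {m n : ℕ} (hm : 1 ≤ m) (w : E m n) :
    ∑ k : KI m, ‖lml (Km ℝ k) w‖ ^ 2 = ((m : ℝ) - 1) / 2 * ‖w‖ ^ 2 := by
  have h1 : ∑ k : KI m, ‖lml (Km ℝ k) w‖ ^ 2 =
      - ((toM w)ᵀ * (∑ k : KI m, Km ℝ k * 1 * Km ℝ k) * toM w).trace := by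
    rw [Matrix.mul_sum, Matrix.sum_mul, Matrix.trace_sum, ← Finset.sum_neg_distrib]
    exact Finset.sum_congr rfl fun k _ => norm_Km k w
  rw [h1, sum_sq, Matrix.mul_smul, Matrix.smul_mul, Matrix.mul_one, Matrix.trace_smul,
    ← inner_tr, real_inner_self_eq_norm_sq, smul_eq_mul]
  ring

end Pool.Agent.H888R2.KB
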