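import Pool.Agent.H888R2.KB.Defs
import Pool.Agent.H888R2.KC.F4

/-!
# A3: bound of the moment map by the operator norm
-/

set_option autoImplicit false

namespace Pool.Agent.H888R2.KB

open MeasureTheory Set Matrix Pool.Agent.H888R2.KC Pool.Agent.H888R2.KT
open scoped ENNReal InnerProductSpace
open Pool.Agent.H212R2.KLS (mu Bdd ev E V OpLe lm Dens toM ofM mv)

namespace A3x

variable {m n : ℕ}

/-- `w xᵀ` -/
noncomputable def MM (w x : E m n) : Matrix (Fin m) (Fin m) ℝ :=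
  Matrix.of fun a b => ∑ j, w (a, j) * x (b, j)

/-- the skew-symmetric part -/
noncomputable def SS (w x : E m n) : Matrix (Fin m) (Fin m) ℝ :=
  Matrix.of fun a b => (MM w x a b - MM w x b a) / 2

theorem inner_lml (K : Matrix (Fin m) (Fin m) ℝ) (w x : E m n) :
    ⟪w, lml K x⟫_ℝ = ∑ a, ∑ b, K a b * MM w x a b := by
  rw [PiLp.inner_apply, Fintype.sum_prod_type]
  refine Finset.sum_congr rfl fun a _ => ?_
  have h1 : ∀ j, ⟪w (a, j), lml K x (a, j)⟫_ℝ = ∑ b, K a b * (w (a, j) * x (b, j)) := by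
    intro j
    have h2 : lml K x (a, j) = ∑ b, K a b * x (b, j) := by
      change (K * toM x) a j = _
      rw [Matrix.mul_apply]
      rfl
    rw [h2]
    simp only [RCLike.inner_apply, conj_trivial]
    rw [Finset.sum_mul]
    refine Finset.sum_congr rfl fun b _ => ?_
    ring
  rw [Finset.sum_congr rfl fun j _ => h1 j, Finset.sum_comm]
  refine Finset.sum_congr rfl fun b _ => ?_
  rw [MM, Matrix.of_apply, Finset.mul_sum]

theorem ip_real (A B : Matrix (Fin m) (Fin m) ℝ) : ip A B = ∑ a, ∑ b, A a b * B a b := by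
  unfold ip
  simp

theorem ip_skew (K : Matrix (Fin m) (Fin m) ℝ) (hK : Kᴴ = -K) (w x : E m n) :
    ∑ a, ∑ b, K a b * MM w x a b = ip K (SS w x) := by
  rw [ip_real]
  have h1 : ∀ a b, K b a = -K a b := by
    intro a b
    have := congrFun (congrFun hK a) b
    simpa [Matrix.conjTranspose_apply] using this
  have h2 : ∑ a, ∑ b, K a b * MM w x b a = -∑ a, ∑ b, K a b * MM w x a b := by
    rw [Finset.sum_comm, ← Finset.sum_neg_distrib]
    refine Finset.sum_congr rfl fun a _ => ?_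
    rw [← Finset.sum_neg_distrib]
    refine Finset.sum_congr rfl fun b _ => ?_
    rw [h1 a b]
    ring
  have h3 : ∑ a, ∑ b, K a b * SS w x a b =
      (∑ a, ∑ b, K a b * MM w x a b - ∑ a, ∑ b, K a b * MM w x b a) / 2 := by
    rw [← Finset.sum_sub_distrib, Finset.sum_div]
    refine Finset.sum_congr rfl fun a _ => ?_
    rw [← Finset.sum_sub_distrib, Finset.sum_div]
    refine Finset.sum_congr rfl fun b _ => ?_
    rw [SS, Matrix.of_apply]
    ring
  rw [h3, h2]
  ring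

theorem SS_skew (w x : E m n) : (SS w x)ᴴ = -SS w x := by
  ext a b
  rw [Matrix.conjTranspose_apply, Matrix.neg_apply, SS, Matrix.of_apply, Matrix.of_apply,
    star_trivial]
  ring

theorem ip_SS_le (w x : E m n) : ip (SS w x) (SS w x) ≤ ∑ a, ∑ b, MM w x a b ^ 2 := by
  rw [ip_real]
  have h1 : ∑ a, ∑ b, MM w x b a ^ 2 = ∑ a, ∑ b, MM w x a b ^ 2 := Finset.sum_comm
  have h2 : ∑ a, ∑ b, SS w x a b * SS w x a b ≤
      ∑ a, ∑ b, (MM w x a b ^ 2 / 2 + MM w x b a ^ 2 / 2) := by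
    refine Finset.sum_le_sum fun a _ => Finset.sum_le_sum fun b _ => ?_
    rw [SS, Matrix.of_apply]
    nlinarith [sq_nonneg (MM w x a b + MM w x b a)]
  refine h2.trans (le_of_eq ?_)
  simp only [Finset.sum_add_distrib, ← Finset.sum_div]
  rw [h1]
  ring

theorem MM_le (r : ℝ) (x : E m n) (hx : OpLe r x) (w : E m n) :
    ∑ a, ∑ b, MM w x a b ^ 2 ≤ r ^ 2 * ‖w‖ ^ 2 := by
  rw [EuclideanSpace.norm_sq_eq, Fintype.sum_prod_type, Finset.mul_sum]
  refine Finset.sum_le_sum fun a _ => ?_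
  have h1 := hx (WithLp.toLp 2 fun j => w (a, j))
  have h2 := pow_le_pow_left₀ (norm_nonneg _) h1 2
  rw [mul_pow, EuclideanSpace.norm_sq_eq, EuclideanSpace.norm_sq_eq] at h2
  refine le_trans (le_of_eq ?_) h2
  refine Finset.sum_congr rfl fun b _ => ?_
  rw [Real.norm_eq_abs, sq_abs]
  congr 1
  change MM w x a b = (toM x *ᵥ fun j => w (a, j)) b
  rw [MM, Matrix.of_apply, Matrix.mulVec, dotProduct]
  refine Finset.sum_congr rfl fun j _ => ?_
  rw [mul_comm]
  rfl

end A3x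

open A3x

theorem lamb {m n : ℕ} (r : ℝ) (hr : 0 ≤ r) (x : E m n) (hx : OpLe r x) (w : E m n) :
    ∑ k : KI m, ⟪w, lml (Km ℝ k) x⟫_ℝ ^ 2 ≤ r ^ 2 * ‖w‖ ^ 2 := by
  have h1 : ∀ k : KI m, ⟪w, lml (Km ℝ k) x⟫_ℝ = ip (Km ℝ k) (SS w x) := by
    intro k
    rw [inner_lml, ip_skew _ (Km_skew k)]
  simp only [h1]
  rw [Km_parseval _ (SS_skew w x)]
  exact (ip_SS_le w x).trans (MM_le r x hx w)

end Pool.Agent.H888R2.KB
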