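import Pool.Agent.H888R2.KB.Defs
import Pool.Agent.H212R2.KLS.L2

/-!
# A4: left multiplication
-/

set_option autoImplicit false

namespace Pool.Agent.H888R2.KB

open MeasureTheory Set Matrix Pool.Agent.H888R2.KC Pool.Agent.H888R2.KT Pool.Agent.H888R2.KB
open scoped ENNReal InnerProductSpace
open Pool.Agent.H212R2.KLS (mu Bdd ev E V OpLe lm Dens toM ofM mv)

namespace A4x

theorem inner_sum {m n : ℕ} (u v : E m n) :
    ⟪u, v⟫_ℝ = ∑ j : Fin n, ∑ i : Fin m, u (i, j) * v (i, j) := by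
  rw [PiLp.inner_apply, Fintype.sum_prod_type, Finset.sum_comm]
  refine Finset.sum_congr rfl fun j _ => Finset.sum_congr rfl fun i _ => ?_
  rw [real_inner_eq_re_inner]
  simp [mul_comm]

theorem lml_app {m n : ℕ} (K : Matrix (Fin m) (Fin m) ℝ) (x : E m n) (i : Fin m) (j : Fin n) :
    lml K x (i, j) = ∑ k, K i k * x (k, j) := by
  change (K * toM x) i j = _
  rw [Matrix.mul_apply]
  rfl

end A4x

theorem lml_skew {m n : ℕ} (K : Matrix (Fin m) (Fin m) ℝ) (hK : Kᵀ = -K) (x y : E m n) :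
    ⟪lml K x, y⟫_ℝ = - ⟪x, lml K y⟫_ℝ := by
  rw [A4x.inner_sum, A4x.inner_sum, ← Finset.sum_neg_distrib]
  refine Finset.sum_congr rfl fun j _ => ?_
  have h1 : ∀ i : Fin m, lml K x (i, j) * y (i, j) = ∑ k, K i k * x (k, j) * y (i, j) := by
    intro i
    rw [A4x.lml_app, Finset.sum_mul]
  have h2 : ∀ i : Fin m, x (i, j) * lml K y (i, j) = ∑ k, x (i, j) * (K i k * y (k, j)) := by
    intro i
    rw [A4x.lml_app, Finset.mul_sum]
  simp only [h1, h2]
  rw [Finset.sum_comm, ← Finset.sum_neg_distrib]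
  refine Finset.sum_congr rfl fun k _ => ?_
  rw [← Finset.sum_neg_distrib]
  refine Finset.sum_congr rfl fun i _ => ?_
  have h3 : K i k = - K k i := by
    have := congrFun (congrFun hK k) i
    rw [Matrix.transpose_apply, Matrix.neg_apply] at this
    exact this
  rw [h3]
  ring

theorem lml_mul {m n : ℕ} (K L : Matrix (Fin m) (Fin m) ℝ) (x : E m n) :
    lml K (lml L x) = lml (K * L) x := by
  change ofM (K * (L * toM x)) = ofM (K * L * toM x)
  rw [Matrix.mul_assoc]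

theorem lml_one {m n : ℕ} (x : E m n) : lml (1 : Matrix (Fin m) (Fin m) ℝ) x = x := by
  change ofM (1 * toM x) = x
  rw [Matrix.one_mul]
  rfl

theorem lml_add {m n : ℕ} (K L : Matrix (Fin m) (Fin m) ℝ) (x : E m n) :
    lml (K + L) x = lml K x + lml L x := by
  change ofM ((K + L) * toM x) = ofM (K * toM x) + ofM (L * toM x)
  rw [Matrix.add_mul]
  rfl

theorem lml_smul {m n : ℕ} (c : ℝ) (K : Matrix (Fin m) (Fin m) ℝ) (x : E m n) :
    lml (c • K) x = c • lml K x := by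
  change ofM ((c • K) * toM x) = c • ofM (K * toM x)
  rw [Matrix.smul_mul]
  rfl

theorem lml_norm {m n : ℕ} (g : Matrix (Fin m) (Fin m) ℝ)
    (hg : g ∈ Matrix.orthogonalGroup (Fin m) ℝ) (x : E m n) : ‖lml g x‖ = ‖x‖ :=
  Pool.Agent.H212R2.KLS.l2_norm hg x

end Pool.Agent.H888R2.KB
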