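import Pool.Agent.H888R2.KB.Defs

/-!
# Components of the block maps
-/

set_option autoImplicit false

namespace Pool.Agent.H888R2.KB

open MeasureTheory Set Matrix Pool.Agent.H888R2.KC Pool.Agent.H888R2.KT Pool.Agent.H888R2.KB
open scoped ENNReal InnerProductSpace
open Pool.Agent.H212R2.KLS (mu Bdd ev E V OpLe lm Dens toM ofM mv)

section

variable {b : ℕ} {ι : Type} [Fintype ι]

theorem cp_bk (i j : Fin b) (A : EuclideanSpace ℝ ι →ₗ[ℝ] EuclideanSpace ℝ ι)
    (x : EuclideanSpace ℝ (Fin b × ι)) : cp j (bk i A x) = if j = i then A (cp i x) else 0 := by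
  by_cases h : j = i
  · subst h
    ext p
    simp [cp, bk]
  · ext p
    simp [cp, bk, h]

theorem cp_ap (i j : Fin b) (A : EuclideanSpace ℝ ι →ₗ[ℝ] EuclideanSpace ℝ ι)
    (x : EuclideanSpace ℝ (Fin b × ι)) :
    cp j (ap i A x) = if j = i then A (cp i x) else cp j x := by
  by_cases h : j = i
  · subst h
    ext p
    simp [cp, ap]
  · ext p
    simp [cp, ap, h]

end

end Pool.Agent.H888R2.KB
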