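import Pool.Agent.H888R2.KB.Defs

/-!
# B1: the block family is again a Lie algebra family (helper21)
-/

set_option autoImplicit false

namespace Pool.Agent.H888R2.KB

open MeasureTheory Set Matrix Pool.Agent.H888R2.KC Pool.Agent.H888R2.KT
open scoped ENNReal InnerProductSpace
open Pool.Agent.H212R2.KLS (mu Bdd ev E V OpLe lm Dens toM ofM mv)

section

variable {b : ℕ} {ι : Type} [Fintype ι]

namespace B1x

theorem inner_cp' (x y : EuclideanSpace ℝ (Fin b × ι)) :
    ⟪x, y⟫_ℝ = ∑ j, ⟪cp j x, cp j y⟫_ℝ := by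
  rw [PiLp.inner_apply, Fintype.sum_prod_type]
  refine Finset.sum_congr rfl fun j _ => ?_
  rw [PiLp.inner_apply]
  rfl

omit [Fintype ι] in
theorem ext_cp' (x y : EuclideanSpace ℝ (Fin b × ι)) (h : ∀ j, cp j x = cp j y) : x = y := by
  ext p
  obtain ⟨j, i⟩ := p
  have h1 := congrArg (fun z : EuclideanSpace ℝ ι => z i) (h j)
  exact h1

omit [Fintype ι] in
theorem cp_bk' (i j : Fin b) (A : EuclideanSpace ℝ ι →ₗ[ℝ] EuclideanSpace ℝ ι)
    (x : EuclideanSpace ℝ (Fin b × ι)) : cp j (bk i A x) = if j = i then A (cp i x) else 0 := by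
  ext k
  change (if j = i then A (cp j x) k else 0) = _
  by_cases h : j = i
  · subst h
    simp
  · simp [h]

theorem inner_bk_left (i : Fin b) (A : EuclideanSpace ℝ ι →ₗ[ℝ] EuclideanSpace ℝ ι)
    (x y : EuclideanSpace ℝ (Fin b × ι)) : ⟪bk i A x, y⟫_ℝ = ⟪A (cp i x), cp i y⟫_ℝ := by
  rw [inner_cp', Finset.sum_eq_single i]
  · rw [cp_bk', if_pos rfl]
  · intro j _ hj
    rw [cp_bk', if_neg hj, inner_zero_left]
  · intro h
    exact absurd (Finset.mem_univ i) h

theorem inner_bk_right (i : Fin b) (A : EuclideanSpace ℝ ι →ₗ[ℝ] EuclideanSpace ℝ ι)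
    (x y : EuclideanSpace ℝ (Fin b × ι)) : ⟪x, bk i A y⟫_ℝ = ⟪cp i x, A (cp i y)⟫_ℝ := by
  rw [inner_cp', Finset.sum_eq_single i]
  · rw [cp_bk', if_pos rfl]
  · intro j _ hj
    rw [cp_bk', if_neg hj, inner_zero_right]
  · intro h
    exact absurd (Finset.mem_univ i) h

omit [Fintype ι] in
theorem cp_sum {κ₁ : Type} [Fintype κ₁] (A : κ₁ → (EuclideanSpace ℝ ι →ₗ[ℝ] EuclideanSpace ℝ ι))
    (g : Fin b × κ₁ → ℝ) (x : EuclideanSpace ℝ (Fin b × ι)) (l : Fin b) :
    cp l (∑ k : Fin b × κ₁, g k • bk k.1 (A k.2) x) = ∑ k₂ : κ₁, g (l, k₂) • A k₂ (cp l x) := by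
  rw [map_sum, Fintype.sum_prod_type, Finset.sum_eq_single l]
  · refine Finset.sum_congr rfl fun k₂ _ => ?_
    rw [map_smul, cp_bk', if_pos rfl]
  · intro j _ hj
    refine Finset.sum_eq_zero fun k₂ _ => ?_
    rw [map_smul, cp_bk', if_neg (Ne.symm hj), smul_zero]
  · intro h
    exact absurd (Finset.mem_univ l) h

/-- the structure constants of the block family -/
noncomputable def sc {κ₁ : Type} (c : κ₁ → κ₁ → κ₁ → ℝ) (i j k : Fin b × κ₁) : ℝ :=
  if i.1 = j.1 ∧ j.1 = k.1 then c i.2 j.2 k.2 else 0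

theorem sc_sum {κ₁ : Type} [Fintype κ₁] (c : κ₁ → κ₁ → κ₁ → ℝ) (k : Fin b × κ₁) (p : Fin b)
    (l₂ : κ₁) :
    ∑ i : Fin b × κ₁, ∑ j : Fin b × κ₁, sc c i j k * sc c i j (p, l₂) =
      if p = k.1 then ∑ i, ∑ j, c i j k.2 * c i j l₂ else 0 := by
  rw [Fintype.sum_prod_type, Finset.sum_eq_single p]
  · by_cases hp : p = k.1
    · rw [if_pos hp]
      refine Finset.sum_congr rfl fun i₂ _ => ?_
      rw [Fintype.sum_prod_type, Finset.sum_eq_single p]
      · refine Finset.sum_congr rfl fun j₂ _ => ?_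
        simp [sc, hp]
      · intro j _ hj
        refine Finset.sum_eq_zero fun j₂ _ => ?_
        have h1 : sc c (p, i₂) (j, j₂) (p, l₂) = 0 := by
          unfold sc
          rw [if_neg]
          intro h
          exact hj h.2
        rw [h1, mul_zero]
      · intro h
        exact absurd (Finset.mem_univ p) h
    · rw [if_neg hp]
      refine Finset.sum_eq_zero fun i₂ _ => Finset.sum_eq_zero fun j _ => ?_
      by_cases hj : p = j.1
      · have h1 : sc c (p, i₂) j k = 0 := by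
          unfold sc
          rw [if_neg]
          intro h
          exact hp (hj.trans h.2)
        rw [h1, zero_mul]
      · have h1 : sc c (p, i₂) j k = 0 := by
          unfold sc
          rw [if_neg]
          intro h
          exact hj h.1
        rw [h1, zero_mul]
  · intro i _ hi
    refine Finset.sum_eq_zero fun i₂ _ => Finset.sum_eq_zero fun j _ => ?_
    have h1 : sc c (i, i₂) j (p, l₂) = 0 := by
      unfold sc
      rw [if_neg]
      intro h
      exact hi (h.1.trans h.2)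
    rw [h1, mul_zero]
  · intro h
    exact absurd (Finset.mem_univ p) h

end B1x

open B1x in
theorem block_fam {κ₁ : Type} [Fintype κ₁] (A : κ₁ → (EuclideanSpace ℝ ι →ₗ[ℝ] EuclideanSpace ℝ ι))
    (hA : ∀ k x y, ⟪A k x, y⟫_ℝ = - ⟪x, A k y⟫_ℝ)
    (c : κ₁ → κ₁ → κ₁ → ℝ) (hc1 : ∀ i j k, c j i k = - c i j k) (hc2 : ∀ i j k, c i k j = - c i j k)
    (hcomm : ∀ i j x, A i (A j x) - A j (A i x) = ∑ k, c i j k • A k x) (κ0 : ℝ)
    (hkil : ∀ k x, ∑ l, (∑ i, ∑ j, c i j k * c i j l) • A l x = κ0 • A k x) :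
    (∀ (k : Fin b × κ₁) (x y : EuclideanSpace ℝ (Fin b × ι)),
      ⟪bk k.1 (A k.2) x, y⟫_ℝ = - ⟪x, bk k.1 (A k.2) y⟫_ℝ) ∧
    ∃ c' : Fin b × κ₁ → Fin b × κ₁ → Fin b × κ₁ → ℝ,
      (∀ i j k, c' j i k = - c' i j k) ∧ (∀ i j k, c' i k j = - c' i j k) ∧
      (∀ i j, ∀ x : EuclideanSpace ℝ (Fin b × ι), bk i.1 (A i.2) (bk j.1 (A j.2) x) -
        bk j.1 (A j.2) (bk i.1 (A i.2) x) = ∑ k, c' i j k • bk k.1 (A k.2) x) ∧
      (∀ k, ∀ x : EuclideanSpace ℝ (Fin b × ι),
        ∑ l, (∑ i, ∑ j, c' i j k * c' i j l) • bk l.1 (A l.2) x = κ0 • bk k.1 (A k.2) x) := by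
  refine ⟨?_, sc c, ?_, ?_, ?_, ?_⟩
  · intro k x y
    rw [inner_bk_left, inner_bk_right, hA]
  · intro i j k
    unfold sc
    by_cases h : i.1 = j.1 ∧ j.1 = k.1
    · rw [if_pos h, if_pos ⟨h.1.symm, h.1.trans h.2⟩, hc1]
    · rw [if_neg h, if_neg, neg_zero]
      intro h'
      exact h ⟨h'.1.symm, h'.1.trans h'.2⟩
  · intro i j k
    unfold sc
    by_cases h : i.1 = j.1 ∧ j.1 = k.1
    · rw [if_pos h, if_pos ⟨h.1.trans h.2, h.2.symm⟩, hc2]
    · rw [if_neg h, if_neg, neg_zero]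
      intro h'
      exact h ⟨h'.1.trans h'.2, h'.2.symm⟩
  · intro i j x
    apply ext_cp'
    intro l
    rw [cp_sum, map_sub, cp_bk', cp_bk', cp_bk', cp_bk']
    by_cases hij : i.1 = j.1
    · by_cases hl : l = i.1
      · have hlj : l = j.1 := hl.trans hij
        rw [if_pos hl, if_pos hlj, if_pos hij, if_pos hij.symm, ← hij, ← hl, hcomm]
        refine Finset.sum_congr rfl fun k₂ _ => ?_
        have h1 : sc c i j (l, k₂) = c i.2 j.2 k₂ := by
          unfold sc
          rw [if_pos]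
          exact ⟨hij, hlj.symm⟩
        rw [h1]
      · have hlj : ¬ l = j.1 := fun h => hl (h.trans hij.symm)
        rw [if_neg hl, if_neg hlj, sub_zero]
        symm
        refine Finset.sum_eq_zero fun k₂ _ => ?_
        have h1 : sc c i j (l, k₂) = 0 := by
          unfold sc
          rw [if_neg]
          intro h
          exact hlj h.2.symm
        rw [h1, zero_smul]
    · have hji : ¬ j.1 = i.1 := fun h => hij h.symm
      rw [if_neg hij, if_neg hji, map_zero, map_zero, ite_self, ite_self, sub_zero]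
      symm
      refine Finset.sum_eq_zero fun k₂ _ => ?_
      have h1 : sc c i j (l, k₂) = 0 := by
        unfold sc
        rw [if_neg]
        intro h
        exact hij h.1
      rw [h1, zero_smul]
  · intro k x
    apply ext_cp'
    intro p
    rw [cp_sum, map_smul, cp_bk']
    have h1 : ∀ l₂ : κ₁, (∑ i : Fin b × κ₁, ∑ j : Fin b × κ₁, sc c i j k * sc c i j (p, l₂)) •
        A l₂ (cp p x) = (if p = k.1 then ∑ i, ∑ j, c i j k.2 * c i j l₂ else 0) •
          A l₂ (cp p x) := by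
      intro l₂
      rw [sc_sum]
    rw [Finset.sum_congr rfl fun l₂ _ => h1 l₂]
    by_cases hp : p = k.1
    · rw [if_pos hp, ← hp, ← hkil]
      simp only [if_true]
    · rw [if_neg hp, smul_zero]
      refine Finset.sum_eq_zero fun l₂ _ => ?_
      rw [if_neg hp, zero_smul]

end

end Pool.Agent.H888R2.KB
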