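import Pool.Agent.H888R2.KB.Defs
import Pool.Agent.H888R2.KB.B0
import Pool.Agent.H888R2.KT.C1

set_option autoImplicit false

namespace Pool.Agent.H888R2.KB

open MeasureTheory Set Matrix Pool.Agent.H888R2.KC Pool.Agent.H888R2.KT
open scoped ENNReal InnerProductSpace
open Pool.Agent.H212R2.KLS (mu Bdd ev E V OpLe lm Dens toM ofM mv)

variable {b : ℕ} {ι : Type} [Fintype ι]

theorem block_cas {κ₁ : Type} [Fintype κ₁]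
    (A : κ₁ → (EuclideanSpace ℝ ι →ₗ[ℝ] EuclideanSpace ℝ ι)) (cV : ℝ)
    (hcas : ∀ w, cV * ‖w‖ ^ 2 ≤ ∑ k, ‖A k w‖ ^ 2) (w : EuclideanSpace ℝ (Fin b × ι)) :
    cV * ‖w‖ ^ 2 ≤ ∑ k : Fin b × κ₁, ‖bk k.1 (A k.2) w‖ ^ 2 := by
  have h1 : ∀ k : Fin b × κ₁, ‖bk k.1 (A k.2) w‖ ^ 2 = ‖A k.2 (cp k.1 w)‖ ^ 2 := by
    intro k
    rw [norm_cp]
    rw [Finset.sum_eq_single k.1]
    · rw [cp_bk, if_pos rfl]
    · intro j _ hj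
      rw [cp_bk, if_neg hj]; simp
    · simp
  simp_rw [h1]
  rw [Fintype.sum_prod_type, norm_cp, Finset.mul_sum]
  exact Finset.sum_le_sum fun i _ => hcas (cp i w)

theorem block_lam {κ₁ : Type} [Fintype κ₁]
    (A : κ₁ → (EuclideanSpace ℝ ι →ₗ[ℝ] EuclideanSpace ℝ ι)) (L : ℝ)
    (x : EuclideanSpace ℝ (Fin b × ι))
    (hL : ∀ (i : Fin b) (w : EuclideanSpace ℝ ι), ∑ k, ⟪w, A k (cp i x)⟫_ℝ ^ 2 ≤ L * ‖w‖ ^ 2)
    (w : EuclideanSpace ℝ (Fin b × ι)) :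
    ∑ k : Fin b × κ₁, ⟪w, bk k.1 (A k.2) x⟫_ℝ ^ 2 ≤ L * ‖w‖ ^ 2 := by
  have h1 : ∀ k : Fin b × κ₁, ⟪w, bk k.1 (A k.2) x⟫_ℝ = ⟪cp k.1 w, A k.2 (cp k.1 x)⟫_ℝ := by
    intro k
    rw [inner_cp]
    rw [Finset.sum_eq_single k.1]
    · rw [cp_bk, if_pos rfl]
    · intro j _ hj
      rw [cp_bk, if_neg hj]
      exact inner_zero_right _
    · intro h; exact absurd (Finset.mem_univ _) h
  simp_rw [h1]
  rw [Fintype.sum_prod_type, norm_cp, Finset.mul_sum]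
  exact Finset.sum_le_sum fun i _ => hL i (cp i w)

end Pool.Agent.H888R2.KB
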