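import Pool.Agent.H888R2.KB.Defs
import Pool.Agent.H888R2.KB.A4
import Pool.Agent.H888R2.KB.B0
import Pool.Agent.H888R2.KT.C1b

/-!
# G1: the action on one block is a linear isometry
-/

set_option autoImplicit false

namespace Pool.Agent.H888R2.KB

open MeasureTheory Set Matrix Pool.Agent.H888R2.KC Pool.Agent.H888R2.KT
open scoped ENNReal InnerProductSpace
open Pool.Agent.H212R2.KLS (mu Bdd ev E V OpLe lm Dens toM ofM mv)

variable {b m n : ℕ}

namespace G1x

theorem apap (i : Fin b) (g h : Matrix (Fin m) (Fin m) ℝ) (hgh : g * h = 1)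
    (x : EuclideanSpace ℝ (Fin b × (Fin m × Fin n))) :
    ap i (lml g) (ap i (lml h) x) = x := by
  refine C1bx.ext_cp _ _ fun j => ?_
  rw [cp_ap]
  by_cases hj : j = i
  · rw [if_pos hj, cp_ap, if_pos rfl, lml_mul, hgh, lml_one, hj]
  · rw [if_neg hj, cp_ap, if_neg hj]

end G1x

theorem ap_iso (i : Fin b) (g : Matrix (Fin m) (Fin m) ℝ)
    (hg : g ∈ Matrix.orthogonalGroup (Fin m) ℝ) :
    ∃ e : EuclideanSpace ℝ (Fin b × (Fin m × Fin n)) ≃ₗᵢ[ℝ]
      EuclideanSpace ℝ (Fin b × (Fin m × Fin n)), ∀ x, e x = ap i (lml g) x := by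
  have h1 : star g * g = 1 := (Matrix.mem_unitaryGroup_iff').1 hg
  have h2 : g * star g = 1 := (Matrix.mem_unitaryGroup_iff).1 hg
  have hn : ∀ x : EuclideanSpace ℝ (Fin b × (Fin m × Fin n)), ‖ap i (lml g) x‖ = ‖x‖ := by
    intro x
    have h1 : ‖ap i (lml g) x‖ ^ 2 = ‖x‖ ^ 2 := by
      rw [C1bx.norm_cp, C1bx.norm_cp]
      refine Finset.sum_congr rfl fun j _ => ?_
      rw [cp_ap]
      by_cases hj : j = i
      · rw [if_pos hj, lml_norm g hg, hj]
      · rw [if_neg hj]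
    exact (sq_eq_sq₀ (norm_nonneg _) (norm_nonneg _)).1 h1
  let e0 : EuclideanSpace ℝ (Fin b × (Fin m × Fin n)) ≃ₗ[ℝ]
      EuclideanSpace ℝ (Fin b × (Fin m × Fin n)) :=
    { ap i (lml g) with
      invFun := ap i (lml (star g))
      left_inv := fun x => G1x.apap i (star g) g h1 x
      right_inv := fun x => G1x.apap i g (star g) h2 x }
  let e : EuclideanSpace ℝ (Fin b × (Fin m × Fin n)) ≃ₗᵢ[ℝ]
      EuclideanSpace ℝ (Fin b × (Fin m × Fin n)) :=
    { e0 with norm_map' := hn }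
  exact ⟨e, fun _ => rfl⟩

theorem ap_mp (i : Fin b) (g : Matrix (Fin m) (Fin m) ℝ)
    (hg : g ∈ Matrix.orthogonalGroup (Fin m) ℝ) :
    MeasurePreserving (ap i (lml (n := n) g))
      (volume : Measure (EuclideanSpace ℝ (Fin b × (Fin m × Fin n)))) volume := by
  obtain ⟨e, he⟩ := ap_iso (n := n) i g hg
  have h1 : (e : EuclideanSpace ℝ (Fin b × (Fin m × Fin n)) →
      EuclideanSpace ℝ (Fin b × (Fin m × Fin n))) = ap i (lml g) := funext he
  rw [← h1]
  exact e.measurePreserving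

end Pool.Agent.H888R2.KB
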