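import Pool.Agent.H888R2.KB.Defs
import Pool.Agent.H888R2.KB.B0
import Pool.Agent.H888R2.KB.G1
import Pool.Agent.H212R2.KLS.L2

/-!
# KLS for blocks: D1, basic constructions of densities
-/

set_option autoImplicit false

namespace Pool.Agent.H888R2.KB

open MeasureTheory Set Matrix Pool.Agent.H888R2.KC Pool.Agent.H888R2.KT Pool.Agent.H888R2.KB
open scoped ENNReal InnerProductSpace
open Pool.Agent.H212R2.KLS (mu Bdd ev E V OpLe lm Dens toM ofM mv)

variable {b m n : ℕ}

namespace D1x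

theorem map_mu {ρ : EuclideanSpace ℝ (Fin b × (Fin m × Fin n)) → ℝ} (hρ : DB ρ) (i : Fin b)
    (g : Matrix (Fin m) (Fin m) ℝ) (hg : g ∈ Matrix.orthogonalGroup (Fin m) ℝ) :
    (mu ρ).map (ap i (lml g)) = mu ρ := by
  have hmp := ap_mp (b := b) (n := n) i g hg
  ext s hs
  rw [Measure.map_apply hmp.measurable hs]
  unfold mu
  rw [withDensity_apply _ (hmp.measurable hs), withDensity_apply _ hs,
    ← hmp.setLIntegral_comp_preimage hs hρ.meas.ennreal_ofReal]
  simp only [hρ.inv i g hg]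

theorem indicator {ρ : EuclideanSpace ℝ (Fin b × (Fin m × Fin n)) → ℝ} (hρ : DB ρ)
    (B : Set (EuclideanSpace ℝ (Fin b × (Fin m × Fin n)))) (hB : Convex ℝ B)
    (hBm : MeasurableSet B)
    (hBi : ∀ i : Fin b, ∀ g ∈ Matrix.orthogonalGroup (Fin m) ℝ, ∀ x,
      ap i (lml g) x ∈ B ↔ x ∈ B) :
    DB (B.indicator ρ) where
  nonneg x := indicator_nonneg (fun x _ => hρ.nonneg x) x
  meas := hρ.meas.indicator hBm
  logc x y t ht0 ht1 := by
    have hn : 0 ≤ B.indicator ρ ((1 - t) • x + t • y) :=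
      indicator_nonneg (fun x _ => hρ.nonneg x) _
    by_cases hx : x ∈ B
    · by_cases hy : y ∈ B
      · have hz : (1 - t) • x + t • y ∈ B := hB hx hy (by linarith) ht0.le (by ring)
        rw [indicator_of_mem hx, indicator_of_mem hy, indicator_of_mem hz]
        exact hρ.logc x y t ht0 ht1
      · rw [indicator_of_notMem hy, Real.zero_rpow ht0.ne', mul_zero]
        exact hn
    · rw [indicator_of_notMem hx, Real.zero_rpow (by linarith : 1 - t ≠ 0), zero_mul]
      exact hn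
  inv i U hU x := by
    by_cases hx : x ∈ B
    · rw [indicator_of_mem hx, indicator_of_mem ((hBi i U hU x).2 hx), hρ.inv i U hU]
    · rw [indicator_of_notMem hx, indicator_of_notMem (fun h => hx ((hBi i U hU x).1 h))]

theorem smul {ρ : EuclideanSpace ℝ (Fin b × (Fin m × Fin n)) → ℝ} (h : DB ρ) (c : ℝ)
    (hc : 0 ≤ c) : DB (fun x => c * ρ x) where
  nonneg x := mul_nonneg hc (h.nonneg x)
  meas := h.meas.const_mul c
  logc x y t ht0 ht1 := by
    have h1 := h.logc x y t ht0 ht1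
    rw [Real.mul_rpow hc (h.nonneg x), Real.mul_rpow hc (h.nonneg y)]
    have h2 : c ^ (1 - t) * c ^ t ≤ c := by
      rcases hc.eq_or_lt with h3 | h3
      · rw [← h3, Real.zero_rpow ht0.ne']
        simp
      · rw [← Real.rpow_add h3]
        simp
    calc c ^ (1 - t) * ρ x ^ (1 - t) * (c ^ t * ρ y ^ t)
        = (c ^ (1 - t) * c ^ t) * (ρ x ^ (1 - t) * ρ y ^ t) := by ring
      _ ≤ c * ρ ((1 - t) • x + t • y) := by
        apply mul_le_mul h2 h1 _ hc
        exact mul_nonneg (Real.rpow_nonneg (h.nonneg x) _) (Real.rpow_nonneg (h.nonneg y) _)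
  inv i g hg x := by rw [h.inv i g hg x]

theorem opLe_convex (r : ℝ) : Convex ℝ {x : E m n | OpLe r x} := by
  intro x hx y hy s t hs ht hst v
  have h1 := hx v
  have h2 := hy v
  rw [Pool.Agent.H212R2.KLS.l2_mv_add]
  calc ‖s • mv x v + t • mv y v‖ ≤ ‖s • mv x v‖ + ‖t • mv y v‖ := norm_add_le _ _
    _ = s * ‖mv x v‖ + t * ‖mv y v‖ := by
        rw [norm_smul, norm_smul, Real.norm_of_nonneg hs, Real.norm_of_nonneg ht]
    _ ≤ s * (r * ‖v‖) + t * (r * ‖v‖) :=
        add_le_add (mul_le_mul_of_nonneg_left h1 hs) (mul_le_mul_of_nonneg_left h2 ht)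
    _ = r * ‖v‖ := by
        rw [← add_mul, hst, one_mul]

theorem opLe_ap (i : Fin b) (g : Matrix (Fin m) (Fin m) ℝ)
    (hg : g ∈ Matrix.orthogonalGroup (Fin m) ℝ) (r : ℝ)
    (x : EuclideanSpace ℝ (Fin b × (Fin m × Fin n))) (j : Fin b) :
    OpLe r (cp j (ap i (lml g) x)) ↔ OpLe r (cp j x) := by
  rw [cp_ap]
  by_cases hj : j = i
  · subst hj
    rw [if_pos rfl]
    refine forall_congr' fun v => ?_
    have h1 : ‖mv (lml g (cp j x)) v‖ = ‖mv (cp j x) v‖ :=
      Pool.Agent.H212R2.KLS.l2_mv_lm hg (cp j x) v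
    rw [h1]
  · rw [if_neg hj]

end D1x

open D1x in
-- D1
theorem DB.basic {ρ : EuclideanSpace ℝ (Fin b × (Fin m × Fin n)) → ℝ} (hρ : DB ρ) :
    (∀ i : Fin b, ∀ g ∈ Matrix.orthogonalGroup (Fin m) ℝ, (mu ρ).map (ap i (lml g)) = mu ρ) ∧
    (∀ r, DB ({x | ∀ i, OpLe r (cp i x)}.indicator ρ)) ∧
    (∀ r, DB ({x | ‖x‖ ≤ r}.indicator ρ)) ∧
    (∀ c, 0 ≤ c → DB (fun x => c * ρ x)) := by
  refine ⟨map_mu hρ, fun r => ?_, fun r => ?_, D1x.smul hρ⟩
  · have hset : {x : EuclideanSpace ℝ (Fin b × (Fin m × Fin n)) | ∀ i, OpLe r (cp i x)} =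
        ⋂ j : Fin b, (cp j) ⁻¹' {x : E m n | OpLe r x} := by
      ext x
      simp only [mem_ofPred_eq, mem_iInter, mem_preimage]
    refine D1x.indicator hρ _ ?_ ?_ (fun i g hg x => ?_)
    · rw [hset]
      exact convex_iInter fun j => (opLe_convex r).linear_preimage (cp j)
    · rw [hset]
      refine MeasurableSet.iInter fun j => ?_
      exact ((Pool.Agent.H212R2.KLS.l2_OpLe_closed r).preimage
        (LinearMap.continuous_of_finiteDimensional (cp j))).measurableSet
    · show (∀ j, OpLe r (cp j (ap i (lml g) x))) ↔ ∀ j, OpLe r (cp j x)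
      exact forall_congr' fun j => opLe_ap i g hg r x j
  · refine D1x.indicator hρ _ ?_ ?_ (fun i g hg x => ?_)
    · have : {x : EuclideanSpace ℝ (Fin b × (Fin m × Fin n)) | ‖x‖ ≤ r} =
          Metric.closedBall 0 r := by
        ext x
        simp
      rw [this]
      exact convex_closedBall 0 r
    · exact (isClosed_le continuous_norm continuous_const).measurableSet
    · show ‖ap i (lml g) x‖ ≤ r ↔ ‖x‖ ≤ r
      obtain ⟨e, he⟩ := ap_iso (b := b) (n := n) i g hg
      rw [← he, e.norm_map]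

end Pool.Agent.H888R2.KB
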