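import Pool.Agent.H888R2.KB.Defs
import Pool.Agent.H888R2.KB.A4
import Pool.Agent.H888R2.KB.B0
import Pool.Agent.H888R2.KB.G1
import Pool.Agent.H888R2.KC.A5
import Pool.Agent.H888R2.KC.W2b

set_option autoImplicit false

namespace Pool.Agent.H888R2.KB

open MeasureTheory Set Matrix Pool.Agent.H888R2.KC Pool.Agent.H888R2.KT
open scoped ENNReal InnerProductSpace
open Pool.Agent.H212R2.KLS (mu Bdd ev E V OpLe lm Dens toM ofM mv)

variable {b m n : ℕ}

theorem cay_orth (K : Matrix (Fin m) (Fin m) ℝ) (hK : Kᵀ = -K) :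
    cay K ∈ Matrix.orthogonalGroup (Fin m) ℝ :=
  (cay_unit K (by rw [Matrix.conjTranspose_eq_transpose_of_trivial]; exact hK)).2.2

namespace G2x

section
open scoped Matrix.Norms.Operator

set_option backward.isDefEq.respectTransparency false in
theorem deriv_path {F : Type*} [NormedAddCommGroup F] [NormedSpace ℝ F]
    (K : Matrix (Fin m) (Fin m) ℝ) (L : Matrix (Fin m) (Fin m) ℝ →ₗ[ℝ] F) :
    HasDerivAt (fun t : ℝ => L (NormedSpace.exp (t • K))) (L K) 0 := by
  have h1 : HasDerivAt (fun t : ℝ => NormedSpace.exp (t • K)) K 0 := by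
    have := hasDerivAt_exp_smul_const' (𝕂 := ℝ) K (0 : ℝ)
    rw [zero_smul, NormedSpace.exp_zero, mul_one] at this
    exact this
  exact (LinearMap.toContinuousLinearMap L).hasFDerivAt.comp_hasDerivAt (0 : ℝ) h1

end

theorem exists_path (K : Matrix (Fin m) (Fin m) ℝ) (hK : Kᵀ = -K) :
    ∃ U : ℝ → Matrix (Fin m) (Fin m) ℝ, (∀ t, U t ∈ Matrix.orthogonalGroup (Fin m) ℝ) ∧ U 0 = 1 ∧
      (∀ s t, U (s + t) = U s * U t) ∧
      ∀ {F : Type} [NormedAddCommGroup F] [NormedSpace ℝ F]
        (L : Matrix (Fin m) (Fin m) ℝ →ₗ[ℝ] F), HasDerivAt (fun t : ℝ => L (U t)) (L K) 0 := by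
  obtain ⟨U, hU, hU0, hadd, -⟩ := KC.A5x.exists_path (𝕜 := ℝ) (ι := Fin 1) K
    (by rw [Matrix.conjTranspose_eq_transpose_of_trivial]; exact hK)
  have hstar : ∀ t : ℝ, (NormedSpace.exp (t • K))ᵀ = NormedSpace.exp (t • (-K)) := by
    intro t
    rw [← Matrix.exp_transpose, Matrix.transpose_smul, hK]
  have hadd : ∀ s t : ℝ, NormedSpace.exp ((s + t) • K) =
      NormedSpace.exp (s • K) * NormedSpace.exp (t • K) := by
    intro s t
    rw [add_smul]
    exact Matrix.exp_add_of_commute _ _ ((Commute.refl K).smul_left s |>.smul_right t)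
  have h0 : NormedSpace.exp ((0 : ℝ) • K) = 1 := by rw [zero_smul, NormedSpace.exp_zero]
  refine ⟨fun t => NormedSpace.exp (t • K), fun t => ?_, h0, hadd, fun L => deriv_path K L⟩
  rw [Matrix.mem_orthogonalGroup_iff]
  show NormedSpace.exp (t • K) * (NormedSpace.exp (t • K))ᵀ = 1
  rw [hstar]
  have h1 : t • (-K) = (-t) • K := by rw [smul_neg, neg_smul]
  rw [h1, ← hadd, add_neg_cancel, h0]

/-- the inclusion of the block `i` -/
noncomputable def ij (i : Fin b) : E m n →ₗ[ℝ] EuclideanSpace ℝ (Fin b × (Fin m × Fin n)) where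
  toFun v := WithLp.toLp 2 fun p => if p.1 = i then v p.2 else 0
  map_add' x y := by
    ext p
    by_cases h : p.1 = i <;> simp [h]
  map_smul' c x := by
    ext p
    by_cases h : p.1 = i <;> simp [h]

/-- the part of `x` outside the block `i` -/
noncomputable def rest (i : Fin b) (x : EuclideanSpace ℝ (Fin b × (Fin m × Fin n))) :
    EuclideanSpace ℝ (Fin b × (Fin m × Fin n)) :=
  WithLp.toLp 2 fun p => if p.1 = i then 0 else x p

/-- `g ↦ g x` on the block `i`, linear in `g` -/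
noncomputable def Lx (i : Fin b) (x : EuclideanSpace ℝ (Fin b × (Fin m × Fin n))) :
    Matrix (Fin m) (Fin m) ℝ →ₗ[ℝ] EuclideanSpace ℝ (Fin b × (Fin m × Fin n)) where
  toFun g := bk i (lml g) x
  map_add' g g' := by
    ext p
    show (if p.1 = i then lml (g + g') (cp p.1 x) p.2 else 0) =
      (if p.1 = i then lml g (cp p.1 x) p.2 else 0) + (if p.1 = i then lml g' (cp p.1 x) p.2 else 0)
    rw [lml_add]
    by_cases h : p.1 = i <;> simp [h]
  map_smul' c g := by
    ext p
    show (if p.1 = i then lml (c • g) (cp p.1 x) p.2 else 0) =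
      c * (if p.1 = i then lml g (cp p.1 x) p.2 else 0)
    rw [lml_smul]
    by_cases h : p.1 = i <;> simp [h]

theorem ap_eq (i : Fin b) (g : Matrix (Fin m) (Fin m) ℝ)
    (x : EuclideanSpace ℝ (Fin b × (Fin m × Fin n))) :
    ap i (lml g) x = rest i x + Lx i x g := by
  ext p
  show (if p.1 = i then lml g (cp p.1 x) p.2 else x p) =
    (if p.1 = i then 0 else x p) + (if p.1 = i then lml g (cp p.1 x) p.2 else 0)
  by_cases h : p.1 = i <;> simp [h]

theorem ap_one (i : Fin b) (x : EuclideanSpace ℝ (Fin b × (Fin m × Fin n))) :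
    ap i (lml (1 : Matrix (Fin m) (Fin m) ℝ)) x = x := by
  ext p
  show (if p.1 = i then lml (1 : Matrix (Fin m) (Fin m) ℝ) (cp p.1 x) p.2 else x p) = x p
  rw [lml_one]
  by_cases h : p.1 = i
  · rw [if_pos h]; rfl
  · rw [if_neg h]

theorem ap_ap (i : Fin b) (g g' : Matrix (Fin m) (Fin m) ℝ)
    (x : EuclideanSpace ℝ (Fin b × (Fin m × Fin n))) :
    ap i (lml g) (ap i (lml g') x) = ap i (lml (g * g')) x := by
  ext p
  show (if p.1 = i then lml g (cp p.1 (ap i (lml g') x)) p.2 else (ap i (lml g') x) p) =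
    (if p.1 = i then lml (g * g') (cp p.1 x) p.2 else x p)
  by_cases h : p.1 = i
  · rw [if_pos h, if_pos h, cp_ap, if_pos h, lml_mul, h]
  · rw [if_neg h, if_neg h]
    show (if p.1 = i then _ else x p) = x p
    rw [if_neg h]

theorem cont_ap (i : Fin b) (g : Matrix (Fin m) (Fin m) ℝ) :
    Continuous (ap i (lml (n := n) g)) := LinearMap.continuous_of_finiteDimensional _

end G2x

open G2x Pool.Agent.H888R2.KC.A5x in
theorem dl_int (μ : Measure (EuclideanSpace ℝ (Fin b × (Fin m × Fin n)))) [IsFiniteMeasure μ]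
    (hinv : ∀ i : Fin b, ∀ g ∈ Matrix.orthogonalGroup (Fin m) ℝ, μ.map (ap i (lml g)) = μ)
    (hb : ∃ R, μ (Metric.closedBall 0 R)ᶜ = 0) (i : Fin b) (K : Matrix (Fin m) (Fin m) ℝ)
    (hK : Kᵀ = -K) (p : MvPolynomial (Fin b × (Fin m × Fin n)) ℝ) :
    ∫ x, ev (dl (bk i (lml K)) p) x ∂μ = 0 := by
  obtain ⟨U, hU, hU0, hUadd, hUd⟩ := G2x.exists_path K hK
  obtain ⟨R, hR⟩ := hb
  have hball : ∀ᵐ x ∂μ, x ∈ Metric.closedBall (0 : EuclideanSpace ℝ (Fin b × (Fin m × Fin n))) R := by
    rw [ae_iff]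
    exact hR
  have hd0 : ∀ y, HasDerivAt (fun t => ev p (ap i (lml (U t)) y))
      (ev (dl (bk i (lml K)) p) y) 0 := by
    intro y
    have h1 : HasDerivAt (fun t => ap i (lml (U t)) y) (bk i (lml K) y) 0 := by
      have h4 : (fun t => ap i (lml (U t)) y) = fun t => rest i y + Lx i y (U t) := by
        funext t
        exact ap_eq _ _ _
      rw [h4]
      exact (hUd (Lx i y)).const_add _
    have h2 : HasFDerivAt (ev p) (fderiv ℝ (ev p) (ap i (lml (U 0)) y)) (ap i (lml (U 0)) y) :=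
      (differentiable_ev p _).hasFDerivAt
    have h3 := h2.comp_hasDerivAt (0 : ℝ) h1
    rw [hU0, ap_one, ← ev_dl] at h3
    exact h3
  have hd : ∀ x t, HasDerivAt (fun τ => ev p (ap i (lml (U τ)) x))
      (ev (dl (bk i (lml K)) p) (ap i (lml (U t)) x)) t := by
    intro x t
    have h1 : HasDerivAt (fun s => ev p (ap i (lml (U s)) (ap i (lml (U t)) x)))
        (ev (dl (bk i (lml K)) p) (ap i (lml (U t)) x)) (t - t) := by
      rw [sub_self]
      exact hd0 _
    have h2 := h1.comp_sub_const t t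
    have h3 : (fun τ => ev p (ap i (lml (U τ)) x)) =
        fun τ => ev p (ap i (lml (U (τ - t))) (ap i (lml (U t)) x)) := by
      funext τ
      rw [ap_ap, ← hUadd, sub_add_cancel]
    rw [h3]
    exact h2
  have hcont : ∀ r : MvPolynomial (Fin b × (Fin m × Fin n)) ℝ, Continuous (ev r) := fun r =>
    (differentiable_ev r).continuous
  obtain ⟨C, hC⟩ :=
    (isCompact_closedBall (0 : EuclideanSpace ℝ (Fin b × (Fin m × Fin n))) R).exists_bound_of_continuousOn
      (hcont (dl (bk i (lml K)) p)).continuousOn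
  obtain ⟨C', hC'⟩ :=
    (isCompact_closedBall (0 : EuclideanSpace ℝ (Fin b × (Fin m × Fin n))) R).exists_bound_of_continuousOn
      (hcont p).continuousOn
  have hmem : ∀ x ∈ Metric.closedBall (0 : EuclideanSpace ℝ (Fin b × (Fin m × Fin n))) R, ∀ t,
      ap i (lml (U t)) x ∈ Metric.closedBall (0 : EuclideanSpace ℝ (Fin b × (Fin m × Fin n))) R := by
    intro x hx t
    rw [mem_closedBall_zero_iff] at hx ⊢
    obtain ⟨e, he⟩ := ap_iso (n := n) i (U t) (hU t)
    rw [← he, e.norm_map]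
    exact hx
  have hmain := hasDerivAt_integral_of_dominated_loc_of_deriv_le (μ := μ)
    (F := fun t x => ev p (ap i (lml (U t)) x))
    (F' := fun t x => ev (dl (bk i (lml K)) p) (ap i (lml (U t)) x))
    (x₀ := (0 : ℝ)) (s := Set.univ) (bound := fun _ => C) Filter.univ_mem
    (Filter.Eventually.of_forall fun t =>
      ((hcont p).comp (cont_ap i (U t))).aestronglyMeasurable)
    (Integrable.of_bound ((hcont p).comp (cont_ap i (U 0))).aestronglyMeasurable C'
      (hball.mono fun x hx => hC' _ (hmem x hx 0)))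
    ((hcont _).comp (cont_ap i (U 0))).aestronglyMeasurable
    (hball.mono fun x hx t _ => hC _ (hmem x hx t))
    (integrable_const C)
    (Filter.Eventually.of_forall fun x t _ => hd x t)
  have h2 := hmain.2
  have h3 : (fun t : ℝ => ∫ x, ev p (ap i (lml (U t)) x) ∂μ) = fun _ => ∫ x, ev p x ∂μ := by
    funext t
    have h4 := integral_map (μ := μ) (φ := ap i (lml (U t))) (cont_ap i (U t)).aemeasurable
      (f := ev p) (hcont p).aestronglyMeasurable
    rw [hinv i (U t) (hU t)] at h4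
    exact h4.symm
  rw [h3] at h2
  have h5 := h2.unique (hasDerivAt_const (0 : ℝ) (∫ x, ev p x ∂μ))
  have h6 : ∀ x : EuclideanSpace ℝ (Fin b × (Fin m × Fin n)), ap i (lml (U 0)) x = x :=
    fun x => by rw [hU0]; exact ap_one i x
  simp only [h6] at h5
  exact h5

end Pool.Agent.H888R2.KB
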