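import Pool.Agent.H888R2.KB.Defs
import Pool.Agent.H888R2.KT.C6b

/-!
# KB G3 (helper929): polynomials annihilated by the fields of one block are invariant under Cayley
rotations of this block
-/

set_option autoImplicit false

namespace Pool.Agent.H888R2.KB

open MeasureTheory Set Matrix Pool.Agent.H888R2.KC Pool.Agent.H888R2.KT Pool.Agent.H888R2.KB
open scoped ENNReal InnerProductSpace
open Pool.Agent.H212R2.KLS (mu Bdd ev E V OpLe lm Dens toM ofM mv)

section

variable {b m n : ℕ}

namespace G3x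

open Filter Topology

/-- the linear map `T ↦ T x` -/
noncomputable def Lx (x : E m n) : Matrix (Fin m) (Fin m) ℝ →ₗ[ℝ] E m n where
  toFun T := lml T x
  map_add' S T := by
    change ofM ((S + T) * toM x) = ofM (S * toM x) + ofM (T * toM x)
    rw [Matrix.add_mul]; rfl
  map_smul' c T := by
    change ofM ((c • T) * toM x) = c • ofM (T * toM x)
    rw [Matrix.smul_mul]; rfl

theorem mul' (S T : Matrix (Fin m) (Fin m) ℝ) (x : E m n) : lml (S * T) x = lml S (lml T x) := by
  change ofM (S * T * toM x) = ofM (S * toM (ofM (T * toM x)))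
  have h : toM (ofM (T * toM x)) = T * toM x := rfl
  rw [h, Matrix.mul_assoc]

theorem one' (x : E m n) : lml (1 : Matrix (Fin m) (Fin m) ℝ) x = x := by
  change ofM (1 * toM x) = x
  rw [Matrix.one_mul]
  rfl

theorem skewH {K : Matrix (Fin m) (Fin m) ℝ} (hK : Kᵀ = -K) : Kᴴ = -K := by
  rw [Matrix.conjTranspose_eq_transpose_of_trivial]
  exact hK

theorem dl_zero (p : MvPolynomial (Fin b × (Fin m × Fin n)) ℝ) (i : Fin b)
    (hp : ∀ k : KI m, dl (bk i (lml (Km ℝ k))) p = 0) (K : Matrix (Fin m) (Fin m) ℝ)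
    (hK : Kᴴ = -K) : dl (bk i (lml K)) p = 0 := by
  rw [dl_sum (fun k => bk i (lml (Km ℝ k))) (fun k => ip (Km ℝ k) K) (bk i (lml K)) _ p]
  · apply Finset.sum_eq_zero
    intro k _
    rw [hp k, smul_zero]
  · intro x
    have h2 : ∀ y : E m n, lml K y = ∑ k, ip (Km ℝ k) K • lml (Km ℝ k) y := by
      intro y
      have h1 := congrArg (Lx y) (Km_complete K hK).symm
      rw [map_sum] at h1
      simp only [map_smul] at h1
      exact h1
    ext p'
    show (if p'.1 = i then (lml K (cp p'.1 x)) p'.2 else 0) = _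
    rw [h2]
    simp only [WithLp.ofLp_sum, WithLp.ofLp_smul, Finset.sum_apply, Pi.smul_apply]
    by_cases h : p'.1 = i
    · rw [if_pos h]
      refine Finset.sum_congr rfl fun k _ => ?_
      show _ = ip (Km ℝ k) K • (if p'.1 = i then (lml (Km ℝ k) (cp p'.1 x)) p'.2 else 0)
      rw [if_pos h]
    · rw [if_neg h]
      symm
      refine Finset.sum_eq_zero fun k _ => ?_
      show ip (Km ℝ k) K • (if p'.1 = i then (lml (Km ℝ k) (cp p'.1 x)) p'.2 else 0) = 0
      rw [if_neg h, smul_zero]

theorem path_deriv {K : Matrix (Fin m) (Fin m) ℝ} (hK : Kᴴ = -K) (y : E m n) (s : ℝ) :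
    HasDerivAt (fun t : ℝ => lml (cay (t • K)) y)
      (lml (A6x.Ws K s s) (lml (cay (s • K)) y)) s := by
  rw [hasDerivAt_iff_tendsto_slope]
  set v := lml (cay (s • K)) y with hv
  have hW : Continuous (A6x.Ws K s) := by
    unfold A6x.Ws
    exact (((A6x.Rs_cont hK).mul continuous_const).mul continuous_const).const_smul (-2 : ℝ)
  have hL : Continuous (Lx v) := LinearMap.continuous_of_finiteDimensional _
  have ht := (hL.comp hW).tendsto s
  refine (ht.mono_left nhdsWithin_le_nhds).congr' ?_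
  filter_upwards [self_mem_nhdsWithin] with t hts
  have hne : t - s ≠ 0 := sub_ne_zero.2 hts
  rw [slope_def_module, ← hv]
  have h1 : lml (cay (t • K)) y = v + (t - s) • lml (A6x.Ws K s t) v := by
    rw [A6x.cay_path hK s t, mul', ← hv]
    have h2 := (Lx v).map_add 1 ((t - s) • A6x.Ws K s t)
    rw [(Lx v).map_smul] at h2
    have h3 : Lx v 1 = v := one' v
    rw [h3] at h2
    exact h2
  rw [h1, add_sub_cancel_left, smul_smul, inv_mul_cancel₀ hne, one_smul]
  rfl

theorem path_deriv2 {K : Matrix (Fin m) (Fin m) ℝ} (hK : Kᴴ = -K) (i : Fin b)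
    (x : EuclideanSpace ℝ (Fin b × (Fin m × Fin n))) (s : ℝ) :
    HasDerivAt (fun t : ℝ => ap i (lml (cay (t • K))) x)
      (bk i (lml (A6x.Ws K s s)) (ap i (lml (cay (s • K))) x)) s := by
  have h1 : HasDerivAt (fun t : ℝ => fun p : Fin b × (Fin m × Fin n) =>
      if p.1 = i then (lml (cay (t • K)) (cp p.1 x)) p.2 else x p)
      (fun p => if p.1 = i then
        (lml (A6x.Ws K s s) (cp p.1 (ap i (lml (cay (s • K))) x))) p.2 else 0) s := by
    rw [hasDerivAt_pi]
    intro p
    by_cases hp : p.1 = i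
    · have h2 : cp p.1 (ap i (lml (cay (s • K))) x) = lml (cay (s • K)) (cp p.1 x) := by
        ext q
        show (if p.1 = i then (lml (cay (s • K)) (cp p.1 x)) q else x (p.1, q)) = _
        rw [if_pos hp]
      rw [if_pos hp, h2]
      have h3 : (fun t : ℝ => if p.1 = i then (lml (cay (t • K)) (cp p.1 x)) p.2 else x p) =
          fun t : ℝ => (lml (cay (t • K)) (cp p.1 x)) p.2 := by
        funext t
        rw [if_pos hp]
      rw [h3]
      exact ((EuclideanSpace.proj p.2 :
        EuclideanSpace ℝ (Fin m × Fin n) →L[ℝ] ℝ).hasFDerivAt.comp_hasDerivAt s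
        (path_deriv hK (cp p.1 x) s))
    · rw [if_neg hp]
      have h3 : (fun t : ℝ => if p.1 = i then (lml (cay (t • K)) (cp p.1 x)) p.2 else x p) =
          fun _ : ℝ => x p := by
        funext t
        rw [if_neg hp]
      rw [h3]
      exact hasDerivAt_const s _
  exact ((PiLp.continuousLinearEquiv 2 ℝ
    (fun _ : Fin b × (Fin m × Fin n) => ℝ)).symm.hasFDerivAt).comp_hasDerivAt s h1

end G3x

theorem inv_of_dl (p : MvPolynomial (Fin b × (Fin m × Fin n)) ℝ) (i : Fin b)
    (hp : ∀ k : KI m, dl (bk i (lml (Km ℝ k))) p = 0) (K : Matrix (Fin m) (Fin m) ℝ)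
    (hK : Kᵀ = -K) (x : EuclideanSpace ℝ (Fin b × (Fin m × Fin n))) :
    ev p (ap i (lml (cay K)) x) = ev p x := by
  have hK' := G3x.skewH hK
  have hd : ∀ s : ℝ, HasDerivAt (fun t : ℝ => ev p (ap i (lml (cay (t • K))) x)) 0 s := by
    intro s
    have h1 : DifferentiableAt ℝ (ev p) (ap i (lml (cay (s • K))) x) :=
      (Pool.Agent.H212R2.KLS.ev_contDiff p 1).differentiable (by norm_num) _
    have h2 := h1.hasFDerivAt.comp_hasDerivAt s (G3x.path_deriv2 hK' i x s)
    rw [← ev_dl, G3x.dl_zero p i hp _ (A6x.Ws_skew hK' s)] at h2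
    have h3 : ev (0 : MvPolynomial (Fin b × (Fin m × Fin n)) ℝ)
        (ap i (lml (cay (s • K))) x) = 0 := by
      unfold ev
      rw [map_zero]
    rw [h3] at h2
    exact h2
  have hconst := is_const_of_deriv_eq_zero (fun s => (hd s).differentiableAt)
    (fun s => (hd s).deriv) 1 0
  have h0 : cay ((0 : ℝ) • K) = 1 := by
    unfold cay
    rw [zero_smul, sub_zero, add_zero, inv_one, mul_one]
  have h4 : ap i (lml (1 : Matrix (Fin m) (Fin m) ℝ)) x = x := by
    ext p'
    show (if p'.1 = i then (lml (1 : Matrix (Fin m) (Fin m) ℝ) (cp p'.1 x)) p'.2 else x p') = x p'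
    by_cases h : p'.1 = i
    · rw [if_pos h, G3x.one']
      rfl
    · rw [if_neg h]
  rw [one_smul, h0, h4] at hconst
  exact hconst

end

end Pool.Agent.H888R2.KB
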