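import Pool.Agent.H888R2.KB.Defs
import Pool.Agent.H888R2.KC.A6

/-!
# G4: invariant functions have vanishing derivatives along the fields
-/

set_option autoImplicit false

namespace Pool.Agent.H888R2.KB

open MeasureTheory Set Matrix Pool.Agent.H888R2.KC Pool.Agent.H888R2.KT
open scoped ENNReal InnerProductSpace
open Pool.Agent.H212R2.KLS (mu Bdd ev E V OpLe lm Dens toM ofM mv)

variable {b m n : ℕ}

namespace G4x

open Filter Topology

theorem deriv_of_slope (f φ : ℝ → ℝ) (hf : ∀ t, f t = f 0 + t * φ t) (hφ : Continuous φ) :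
    HasDerivAt f (φ 0) 0 := by
  rw [hasDerivAt_iff_tendsto_slope]
  have h1 : Tendsto φ (𝓝[≠] 0) (𝓝 (φ 0)) := hφ.continuousAt.tendsto.mono_left nhdsWithin_le_nhds
  apply h1.congr'
  filter_upwards [self_mem_nhdsWithin] with t ht
  have ht0 : t ≠ 0 := ht
  rw [slope_def_field, hf t]
  field_simp
  ring

theorem Rs_zero (K : Matrix (Fin m) (Fin m) ℝ) : A6x.Rs K 0 = 1 := by
  unfold A6x.Rs
  rw [zero_smul, add_zero, inv_one]

theorem cay_deriv (K : Matrix (Fin m) (Fin m) ℝ) (hK : Kᴴ = -K) (i j : Fin m) :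
    HasDerivAt (fun t : ℝ => cay (t • K) i j) (-2 * K i j) 0 := by
  have h1 := deriv_of_slope (fun t : ℝ => cay (t • K) i j)
    (fun t => -2 * (A6x.Rs K t * K) i j) (by
      intro t
      have e1 := A6x.Rs_sub hK 0 t
      rw [Rs_zero, mul_one, sub_zero] at e1
      have e2 : cay (t • K) = cay ((0 : ℝ) • K) + (-(2 * t)) • (A6x.Rs K t * K) := by
        rw [A6x.cay_eq hK, A6x.cay_eq hK, Rs_zero]
        have e3 : A6x.Rs K t = 1 - t • (A6x.Rs K t * K) := by
          exact (sub_eq_iff_eq_add.1 e1).trans (by abel)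
        conv_lhs => rw [e3]
        rw [smul_sub, smul_smul, neg_smul]
        abel
      show cay (t • K) i j = cay ((0 : ℝ) • K) i j + t * (-2 * (A6x.Rs K t * K) i j)
      rw [e2, Matrix.add_apply, Matrix.smul_apply, smul_eq_mul]
      ring) (by
      have h2 : Continuous fun t : ℝ => A6x.Rs K t * K := (A6x.Rs_cont hK).matrix_mul continuous_const
      exact continuous_const.mul ((continuous_apply j).comp ((continuous_apply i).comp h2)))
  have h3 : -2 * (A6x.Rs K 0 * K) i j = -2 * K i j := by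
    rw [Rs_zero, one_mul]
  rw [← h3]
  exact h1

theorem lml_deriv (K : Matrix (Fin m) (Fin m) ℝ) (hK : Kᴴ = -K) (y : E m n) (p : Fin m × Fin n) :
    HasDerivAt (fun t : ℝ => (lml (cay (t • K)) y) p) ((-2 : ℝ) * (lml K y) p) 0 := by
  have h1 : ∀ M : Matrix (Fin m) (Fin m) ℝ, (lml M y) p = ∑ a, M p.1 a * y (a, p.2) := by
    intro M
    show (M * toM y) p.1 p.2 = _
    rw [Matrix.mul_apply]
    rfl
  simp only [h1]
  rw [Finset.mul_sum]
  apply HasDerivAt.fun_sum
  intro a _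
  have := (cay_deriv K hK p.1 a).mul_const (y (a, p.2))
  rw [mul_assoc] at this
  exact this

theorem ap_deriv (i : Fin b) (K : Matrix (Fin m) (Fin m) ℝ) (hK : Kᴴ = -K)
    (x : EuclideanSpace ℝ (Fin b × (Fin m × Fin n))) :
    HasDerivAt (fun t : ℝ => ap i (lml (cay (t • K))) x) ((-2 : ℝ) • bk i (lml K) x) 0 := by
  have h1 : HasDerivAt (fun t : ℝ => fun p : Fin b × (Fin m × Fin n) =>
      (ap i (lml (cay (t • K))) x) p)
      (fun p : Fin b × (Fin m × Fin n) => ((-2 : ℝ) • bk i (lml K) x) p) 0 := by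
    rw [hasDerivAt_pi]
    intro p
    by_cases hp : p.1 = i
    · have h2 : ∀ t : ℝ, (ap i (lml (cay (t • K))) x) p = (lml (cay (t • K)) (cp p.1 x)) p.2 := by
        intro t
        show (if p.1 = i then (lml (cay (t • K)) (cp p.1 x)) p.2 else x p) = _
        rw [if_pos hp]
      have h3 : ((-2 : ℝ) • bk i (lml K) x) p = (-2 : ℝ) * (lml K (cp p.1 x)) p.2 := by
        show (-2 : ℝ) * (if p.1 = i then (lml K (cp p.1 x)) p.2 else 0) = _
        rw [if_pos hp]
      simp only [h2]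
      rw [h3]
      exact lml_deriv K hK (cp p.1 x) p.2
    · have h2 : ∀ t : ℝ, (ap i (lml (cay (t • K))) x) p = x p := by
        intro t
        show (if p.1 = i then (lml (cay (t • K)) (cp p.1 x)) p.2 else x p) = _
        rw [if_neg hp]
      have h3 : ((-2 : ℝ) • bk i (lml K) x) p = 0 := by
        show (-2 : ℝ) * (if p.1 = i then (lml K (cp p.1 x)) p.2 else 0) = _
        rw [if_neg hp, mul_zero]
      simp only [h2]
      rw [h3]
      exact hasDerivAt_const _ _
  have h3 := (EuclideanSpace.equiv (Fin b × (Fin m × Fin n)) ℝ).symm.toContinuousLinearMap.hasFDerivAt.comp_hasDerivAt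
    (0 : ℝ) h1
  exact h3

theorem cay_zero (K : Matrix (Fin m) (Fin m) ℝ) : cay ((0 : ℝ) • K) = 1 := by
  unfold cay
  rw [zero_smul, sub_zero, add_zero, inv_one, mul_one]

theorem ap_one (i : Fin b) (x : EuclideanSpace ℝ (Fin b × (Fin m × Fin n))) :
    ap i (lml (1 : Matrix (Fin m) (Fin m) ℝ)) x = x := by
  have h : lml (1 : Matrix (Fin m) (Fin m) ℝ) = (LinearMap.id : E m n →ₗ[ℝ] E m n) := by
    ext y p
    show ofM ((1 : Matrix (Fin m) (Fin m) ℝ) * toM _) p = _
    rw [Matrix.one_mul]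
    rfl
  rw [h]
  ext p
  show (if p.1 = i then (cp p.1 x) p.2 else x p) = x p
  split_ifs <;> rfl

end G4x

open G4x in
theorem fderiv_of_inv (v : EuclideanSpace ℝ (Fin b × (Fin m × Fin n)) → ℝ) (hv : ContDiff ℝ 1 v)
    (i : Fin b) (hi : ∀ K : Matrix (Fin m) (Fin m) ℝ, Kᵀ = -K → ∀ x, v (ap i (lml (cay K)) x) = v x)
    (K : Matrix (Fin m) (Fin m) ℝ) (hK : Kᵀ = -K)
    (x : EuclideanSpace ℝ (Fin b × (Fin m × Fin n))) : fderiv ℝ v x (bk i (lml K) x) = 0 := by
  have hK' : Kᴴ = -K := by rw [Matrix.conjTranspose_eq_transpose_of_trivial, hK]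
  have h0 : ap i (lml (cay ((0 : ℝ) • K))) x = x := by rw [cay_zero, ap_one]
  have h1 : HasFDerivAt v (fderiv ℝ v (ap i (lml (cay ((0 : ℝ) • K))) x))
      (ap i (lml (cay ((0 : ℝ) • K))) x) :=
    (hv.differentiable (by norm_num) _).hasFDerivAt
  have h2 := h1.comp_hasDerivAt (0 : ℝ) (ap_deriv i K hK' x)
  have h3 : (v ∘ fun t : ℝ => ap i (lml (cay (t • K))) x) = fun _ => v x := by
    funext t
    exact hi (t • K) (by rw [Matrix.transpose_smul, hK, smul_neg]) x
  rw [h3, h0] at h2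
  have h4 := h2.unique (hasDerivAt_const (0 : ℝ) (v x))
  rw [map_smul, smul_eq_mul] at h4
  linarith

end Pool.Agent.H888R2.KB
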