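import Pool.Agent.H888R2.KB.Defs
import Pool.Agent.H888R2.KB.A1
import Pool.Agent.H888R2.KB.A2
import Pool.Agent.H888R2.KB.A3
import Pool.Agent.H888R2.KB.A4
import Pool.Agent.H888R2.KB.B1
import Pool.Agent.H888R2.KB.B2
import Pool.Agent.H888R2.KB.D1
import Pool.Agent.H888R2.KB.G1
import Pool.Agent.H888R2.KB.G2
import Pool.Agent.H888R2.KB.G3
import Pool.Agent.H888R2.KB.G4
import Pool.Agent.H888R2.KT.N12
import Pool.Agent.H888R2.KC.F4
import Pool.Agent.H212R2.KLS.T2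

set_option autoImplicit false

namespace Pool.Agent.H888R2.KB

open MeasureTheory Set Matrix Pool.Agent.H888R2.KC Pool.Agent.H888R2.KT
open scoped ENNReal InnerProductSpace
open Pool.Agent.H212R2.KLS (mu Bdd ev E V OpLe lm Dens toM ofM mv)

variable {b m n : ℕ}

theorem D2x_zero (x : EuclideanSpace ℝ (Fin b × (Fin m × Fin n)))
    (h : ∀ i, OpLe 0 (cp i x)) : x = 0 := by
  classical
  ext ⟨i, k, l⟩
  have h1 := h i (EuclideanSpace.single l 1)
  rw [zero_mul] at h1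
  have h2 : mv (cp i x) (EuclideanSpace.single l (1 : ℝ)) = 0 := norm_le_zero_iff.1 h1
  have h3 := congrArg (fun v : V m => v k) h2
  simp only [PiLp.zero_apply] at h3
  have h4 : mv (cp i x) (EuclideanSpace.single l (1 : ℝ)) k =
      ∑ j, (cp i x) (k, j) * (EuclideanSpace.single l (1 : ℝ) : V n) j := rfl
  rw [h4] at h3
  simp only [EuclideanSpace.single_apply, mul_ite, mul_one, mul_zero, Finset.sum_ite_eq',
    Finset.sum_ite_eq, Finset.mem_univ, if_true] at h3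
  exact h3

theorem local_poincare (hm : 3 ≤ m) {ρ : EuclideanSpace ℝ (Fin b × (Fin m × Fin n)) → ℝ}
    (hρ : DB ρ) (hb : Bdd ρ) (hfin : mu ρ univ ≠ ⊤) (r : ℝ) (hr : 0 ≤ r)
    (hs : ∀ x, ¬ (∀ i, OpLe r (cp i x)) → ρ x = 0)
    (f : EuclideanSpace ℝ (Fin b × (Fin m × Fin n)) → ℝ) (hf : ContDiff ℝ 1 f) :
    ∃ c : ℝ, ∫ x, (f x - c) ^ 2 ∂(mu ρ) ≤ 24 * r ^ 2 / m * ∫ x, ‖fderiv ℝ f x‖ ^ 2 ∂(mu ρ) := by
  by_cases hμ : mu ρ = 0
  · exact ⟨0, by simp [hμ]⟩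
  have hLC : LC ρ := ⟨hρ.nonneg, hρ.meas, hρ.logc, hb, hfin, hμ⟩
  have hfin' : IsFiniteMeasure (mu ρ) := ⟨lt_top_iff_ne_top.2 hfin⟩
  have hm3 : (3 : ℝ) ≤ m := by exact_mod_cast hm
  rcases hr.eq_or_lt with h0 | hr0
  · refine ⟨f 0, ?_⟩
    have hae : ∀ᵐ x ∂(mu ρ), (f x - f 0) ^ 2 = 0 := by
      rw [ae_iff]
      rw [mu, withDensity_apply_eq_zero' (hρ.meas.ennreal_ofReal.aemeasurable)]
      refine measure_mono_null ?_
        (measure_empty (μ := (volume : Measure (EuclideanSpace ℝ (Fin b × (Fin m × Fin n))))))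
      intro x hx
      refine hx.1 ?_
      rw [hs x ?_, ENNReal.ofReal_zero]
      intro hcon
      rw [← h0] at hcon
      have := D2x_zero x hcon
      apply hx.2
      rw [this]; simp
    rw [integral_congr_ae hae, integral_zero]
    have : 0 ≤ ∫ x, ‖fderiv ℝ f x‖ ^ 2 ∂(mu ρ) := integral_nonneg fun x => by positivity
    positivity
  obtain ⟨c, κ0, hκ, hc1, hc2, hcomm, hkil⟩ := alg m n hm
  have hκ0 : 0 < κ0 := by linarith
  have hball : ∃ R, (mu ρ) (Metric.closedBall 0 R)ᶜ = 0 := by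
    obtain ⟨R, hR⟩ := hb
    refine ⟨R, ?_⟩
    rw [mu, withDensity_apply_eq_zero' (hρ.meas.ennreal_ofReal.aemeasurable)]
    refine measure_mono_null ?_
      (measure_empty (μ := (volume : Measure (EuclideanSpace ℝ (Fin b × (Fin m × Fin n))))))
    intro x hx
    refine hx.1 ?_
    have h2 : R < ‖x‖ := by
      have := hx.2
      rw [mem_compl_iff, mem_closedBall_zero_iff, not_le] at this
      exact this
    simp [hR x h2]
  have hsk : ∀ (k : KI m) (x y : E m n), ⟪lml (Km ℝ k) x, y⟫_ℝ = - ⟪x, lml (Km ℝ k) y⟫_ℝ :=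
    fun k x y => lml_skew _ (by
      have := Km_skew (𝕜 := ℝ) k
      rwa [Matrix.conjTranspose_eq_transpose_of_trivial] at this) x y
  have hKt : ∀ k : KI m, (Km ℝ k)ᵀ = - Km ℝ k := fun k => by
    have := Km_skew (𝕜 := ℝ) k
    rwa [Matrix.conjTranspose_eq_transpose_of_trivial] at this
  obtain ⟨hB1, c', hc1', hc2', hcomm', hkil'⟩ := block_fam (b := b)
    (fun k : KI m => (lml (Km ℝ k) : E m n →ₗ[ℝ] E m n)) hsk c hc1 hc2 hcomm κ0 hkil
  have hcV : (0 : ℝ) < ((m : ℝ) - 1) / 2 := by linarith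
  obtain ⟨c'', hc''⟩ := gen_local (ρ := ρ)
    (fun k : Fin b × KI m => bk k.1 (lml (n := n) (Km ℝ k.2)))
    hB1 c' hc1' hc2' hcomm' κ0 hκ0 hkil'
    (fun j : Fin 0 => j.elim0) ⟨fun j => j.elim0, fun j => j.elim0⟩ (((m : ℝ) - 1) / 2) hcV
    (fun w => by
      have := block_cas (b := b) (fun k : KI m => (lml (Km ℝ k) : E m n →ₗ[ℝ] E m n))
        (((m : ℝ) - 1) / 2) (fun w => (cas (by omega) w).ge) w
      simpa using this) hLC (r ^ 2 / (((m : ℝ) - 1) / 2)) (by positivity)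
    (fun x y => by
      have h1 := hρ.logc x y (1 / 2) (by norm_num) (by norm_num)
      have h2 : (1 - 1 / 2 : ℝ) = 1 / 2 := by norm_num
      rw [h2, ← smul_add] at h1
      simp only [Finset.univ_eq_empty, Finset.sum_empty, zero_div, neg_zero, Real.exp_zero, mul_one]
      have h3 : ρ x * ρ y = (ρ x ^ (1 / 2 : ℝ) * ρ y ^ (1 / 2 : ℝ)) ^ 2 := by
        rw [mul_pow, ← Real.sqrt_eq_rpow, ← Real.sqrt_eq_rpow, Real.sq_sqrt (hρ.nonneg x),
          Real.sq_sqrt (hρ.nonneg y)]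
      rw [h3]
      have h4 : 0 ≤ ρ x ^ (1 / 2 : ℝ) * ρ y ^ (1 / 2 : ℝ) :=
        mul_nonneg (Real.rpow_nonneg (hρ.nonneg x) _) (Real.rpow_nonneg (hρ.nonneg y) _)
      exact pow_le_pow_left₀ h4 h1 2)
    (r ^ 2) (by positivity)
    (fun x hx w => block_lam (b := b) (fun k : KI m => (lml (Km ℝ k) : E m n →ₗ[ℝ] E m n))
      (r ^ 2) x (fun i w => by
        have hop : ∀ i, OpLe r (cp i x) := by
          by_contra hcon
          exact hx (hs x hcon)
        exact lamb r hr _ (hop i) w) w)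
    {g | ∃ (i : Fin b) (K' : Matrix (Fin m) (Fin m) ℝ), K'ᵀ = -K' ∧
      ∀ x, g x = ap i (lml (cay K')) x}
    (by
      rintro g ⟨i, K', hK', hg⟩ x
      rw [hg]
      exact hρ.inv i (cay K') (cay_orth K' hK') x)
    (by
      intro v hv hvg k x
      refine fderiv_of_inv v hv k.1 ?_ (Km ℝ k.2) (hKt k.2) x
      intro K' hK' y
      obtain ⟨g, hg⟩ := ap_iso (n := n) k.1 (cay K') (cay_orth K' hK')
      have h1 := hvg g ⟨k.1, K', hK', hg⟩ y
      rwa [hg] at h1)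
    (by
      rintro p hp g ⟨i, K', hK', hg⟩ x
      rw [hg]
      exact inv_of_dl p i (fun k => hp (i, k)) K' hK' x)
    (fun k p => dl_int (mu ρ) (DB.basic hρ).1 hball _ _ (hKt k.2) p) f hf
  refine ⟨c'', hc''.trans (mul_le_mul_of_nonneg_right ?_ (integral_nonneg fun x => by positivity))⟩
  have hm0 : (0 : ℝ) < m := by linarith
  have hr2 : 0 ≤ r ^ 2 := sq_nonneg r
  rw [max_self]
  have h1 : 4 * r ^ 2 / κ0 ≤ 12 * r ^ 2 / m := by
    rw [div_le_div_iff₀ hκ0 hm0]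
    have h2 : (m : ℝ) ≤ 3 * κ0 := by linarith
    nlinarith [mul_le_mul_of_nonneg_left h2 hr2]
  have h3 : r ^ 2 / (((m : ℝ) - 1) / 2) ≤ 3 * r ^ 2 / m := by
    rw [div_le_div_iff₀ hcV hm0]
    have h2 : (m : ℝ) ≤ 3 * (((m : ℝ) - 1) / 2) := by linarith
    nlinarith [mul_le_mul_of_nonneg_left h2 hr2]
  calc 4 * r ^ 2 / κ0 + 4 * (r ^ 2 / (((m : ℝ) - 1) / 2))
      ≤ 12 * r ^ 2 / m + 4 * (3 * r ^ 2 / m) := by linarith
    _ = 24 * r ^ 2 / m := by ring

end Pool.Agent.H888R2.KB
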