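import Pool.Agent.H888R2.KT.Defs

/-!
# KLS for blocks of matrices invariant under independent rotations: definitions
-/

set_option autoImplicit false

namespace Pool.Agent.H888R2.KB

open MeasureTheory Set Matrix Pool.Agent.H888R2.KC Pool.Agent.H888R2.KT
open scoped ENNReal InnerProductSpace
open Pool.Agent.H212R2.KLS (mu Bdd ev E V OpLe lm Dens toM ofM mv)

/-- left multiplication `X ↦ K X` of `m × n` matrices, as a linear map -/
noncomputable def lml {m n : ℕ} (K : Matrix (Fin m) (Fin m) ℝ) : E m n →ₗ[ℝ] E m n where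
  toFun x := lm K x
  map_add' x y := by
    change ofM (K * (toM (x + y))) = ofM (K * toM x) + ofM (K * toM y)
    have h : toM (x + y) = toM x + toM y := rfl
    rw [h, Matrix.mul_add]; rfl
  map_smul' c x := by
    change ofM (K * (toM (c • x))) = c • ofM (K * toM x)
    have h : toM (c • x) = c • toM x := rfl
    rw [h, Matrix.mul_smul]; rfl

section

variable {b : ℕ} {ι : Type} [Fintype ι]

/-- a linear map acting on the block `i`, zero on the other blocks -/
noncomputable def bk (i : Fin b) (A : EuclideanSpace ℝ ι →ₗ[ℝ] EuclideanSpace ℝ ι) :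
    EuclideanSpace ℝ (Fin b × ι) →ₗ[ℝ] EuclideanSpace ℝ (Fin b × ι) where
  toFun x := WithLp.toLp 2 fun p => if p.1 = i then A (cp p.1 x) p.2 else 0
  map_add' x y := by
    ext p
    by_cases h : p.1 = i <;> simp [h]
  map_smul' c x := by
    ext p
    by_cases h : p.1 = i <;> simp [h]

/-- a linear map acting on the block `i`, identity on the other blocks -/
noncomputable def ap (i : Fin b) (A : EuclideanSpace ℝ ι →ₗ[ℝ] EuclideanSpace ℝ ι) :
    EuclideanSpace ℝ (Fin b × ι) →ₗ[ℝ] EuclideanSpace ℝ (Fin b × ι) where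
  toFun x := WithLp.toLp 2 fun p => if p.1 = i then A (cp p.1 x) p.2 else x p
  map_add' x y := by
    ext p
    by_cases h : p.1 = i <;> simp [h]
  map_smul' c x := by
    ext p
    by_cases h : p.1 = i <;> simp [h]

end

/-- log-concave density on `b`-tuples of `m × n` matrices, invariant under left multiplication of
each block by orthogonal matrices -/
structure DB {b m n : ℕ} (ρ : EuclideanSpace ℝ (Fin b × (Fin m × Fin n)) → ℝ) : Prop where
  nonneg : ∀ x, 0 ≤ ρ x
  meas : Measurable ρ
  logc : ∀ x y : EuclideanSpace ℝ (Fin b × (Fin m × Fin n)), ∀ t : ℝ, 0 < t → t < 1 →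
    ρ x ^ (1 - t) * ρ y ^ t ≤ ρ ((1 - t) • x + t • y)
  inv : ∀ i : Fin b, ∀ g ∈ Matrix.orthogonalGroup (Fin m) ℝ, ∀ x, ρ (ap i (lml g) x) = ρ x

/-- the factor `1 + log b / m` -/
noncomputable def fb (b m : ℕ) : ℝ := 1 + Real.log b / m

end Pool.Agent.H888R2.KB
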