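import Mathlib

set_option autoImplicit false

namespace Pool.Agent.H888R2.KB

open MeasureTheory Set

theorem glue0 {F : Type} [NormedAddCommGroup F] [InnerProductSpace ℝ F] [FiniteDimensional ℝ F]
    [MeasurableSpace F] [BorelSpace F] (μ : Measure F) [IsProbabilityMeasure μ]
    (hb : ∃ R, μ (Metric.closedBall 0 R)ᶜ = 0) (A : Set F) (hA : MeasurableSet A)
    (f : F → ℝ) (hf : ContDiff ℝ 1 f) (hf1 : ∀ x, ‖fderiv ℝ f x‖ ≤ 1) (c D M Q ε : ℝ)
    (hD : 0 ≤ D) (hM : 0 ≤ M) (hQ : 0 ≤ Q) (hε0 : 0 ≤ ε) (hε : ε ≤ 1 / 2)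
    (hAε : μ Aᶜ ≤ ENNReal.ofReal (ε ^ 2)) (h2 : ∫ x, ‖x‖ ^ 2 ∂μ ≤ M) (h4 : ∫ x, ‖x‖ ^ 4 ∂μ ≤ Q ^ 2)
    (hloc : ∫ x in A, (f x - c) ^ 2 ∂μ ≤ D) :
    ∫ x, (f x - c) ^ 2 ∂μ ≤ 9 * D + 8 * M * ε ^ 2 + 2 * Q * ε := by
  obtain ⟨R, hR⟩ := hb
  have hae : ∀ᵐ x ∂μ, ‖x‖ ≤ R := by
    rw [ae_iff]
    refine measure_mono_null (fun x hx => ?_) hR
    rw [mem_compl_iff, mem_closedBall_zero_iff]
    exact hx
  -- continuous functions are integrable
  have hint : ∀ g : F → ℝ, Continuous g → Integrable g μ := by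
    intro g hg
    obtain ⟨C, hC⟩ := (isCompact_closedBall (0 : F) R).exists_bound_of_continuousOn hg.continuousOn
    refine Integrable.of_bound hg.aestronglyMeasurable C (hae.mono fun x hx => hC x ?_)
    rw [mem_closedBall_zero_iff]; exact hx
  have hfc : Continuous f := hf.continuous
  have hlip : ∀ x, |f x - f 0| ≤ ‖x‖ := by
    intro x
    have h := Convex.norm_image_sub_le_of_norm_fderiv_le (𝕜 := ℝ) (f := f) (s := univ) (C := 1)
      (fun y _ => hf.differentiable one_ne_zero y) (fun y _ => hf1 y) convex_univ (mem_univ 0)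
      (mem_univ x)
    rwa [sub_zero, one_mul, Real.norm_eq_abs] at h
  have hlip2 : ∀ x, (f x - f 0) ^ 2 ≤ ‖x‖ ^ 2 := fun x => by
    rw [← sq_abs]; exact pow_le_pow_left₀ (abs_nonneg _) (hlip x) 2
  set a := μ.real Aᶜ with ha
  have ha1 : a ≤ ε ^ 2 := ENNReal.toReal_le_of_le_ofReal (by positivity) hAε
  have ha0 : 0 ≤ a := measureReal_nonneg
  have hA1 : μ.real A = 1 - a := by
    have := measureReal_compl (μ := μ) hA
    rw [probReal_univ] at this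
    linarith
  have hε4 : ε ^ 2 ≤ 1 / 4 := by nlinarith
  have i0 := hint (fun x => (f x - c) ^ 2) (by fun_prop)
  have i2 := hint (fun x => ‖x‖ ^ 2) (by fun_prop)
  have i4 := hint (fun x => ‖x‖ ^ 4) (by fun_prop)
  -- the constant
  have hc : (f 0 - c) ^ 2 * (1 - a) ≤ 2 * M + 2 * D := by
    have h5 : ∫ x in A, (f 0 - c) ^ 2 ∂μ ≤ ∫ x in A, (2 * ‖x‖ ^ 2 + 2 * (f x - c) ^ 2) ∂μ := by
      refine setIntegral_mono (integrableOn_const (measure_ne_top _ _))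
        ((i2.const_mul 2).add (i0.const_mul 2)).integrableOn fun x => ?_
      have := hlip2 x
      nlinarith [sq_nonneg ((f x - f 0) + (f x - c)), sq_nonneg ((f x - c) + (f x - f 0))]
    rw [setIntegral_const, smul_eq_mul, hA1] at h5
    have h6 : ∫ x in A, (2 * ‖x‖ ^ 2 + 2 * (f x - c) ^ 2) ∂μ =
        2 * ∫ x in A, ‖x‖ ^ 2 ∂μ + 2 * ∫ x in A, (f x - c) ^ 2 ∂μ := by
      rw [integral_add (i2.const_mul 2).integrableOn (i0.const_mul 2).integrableOn,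
        integral_const_mul, integral_const_mul]
    have h7 : ∫ x in A, ‖x‖ ^ 2 ∂μ ≤ ∫ x, ‖x‖ ^ 2 ∂μ :=
      setIntegral_le_integral i2 (Filter.Eventually.of_forall fun x => by positivity)
    rw [h6] at h5
    nlinarith
  have hc2 : (f 0 - c) ^ 2 ≤ 8 / 3 * (M + D) := by
    have h8 : 3 / 4 * (f 0 - c) ^ 2 ≤ (f 0 - c) ^ 2 * (1 - a) := by
      nlinarith [sq_nonneg (f 0 - c)]
    linarith
  -- second moment outside
  have hout : ∫ x in Aᶜ, ‖x‖ ^ 2 ∂μ ≤ Q * ε := by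
    rcases hQ.eq_or_lt with hQ0 | hQ0
    · -- fourth moment zero
      have h9 : ∫ x, ‖x‖ ^ 4 ∂μ = 0 := le_antisymm (by rw [← hQ0] at h4; simpa using h4)
        (integral_nonneg fun x => by positivity)
      have h10 : (fun x : F => ‖x‖ ^ 4) =ᵐ[μ] 0 :=
        (integral_eq_zero_iff_of_nonneg (fun x => by positivity) i4).1 h9
      have h11 : ∫ x in Aᶜ, ‖x‖ ^ 2 ∂μ = 0 := by
        refine integral_eq_zero_of_ae (ae_restrict_of_ae ?_)
        filter_upwards [h10] with x hx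
        have hx' : ‖x‖ ^ 4 = 0 := hx
        have : ‖x‖ = 0 := by simpa using hx'
        rw [this]; norm_num
      rw [h11]; positivity
    · rcases hε0.eq_or_lt with he0 | he0
      · have h12 : μ Aᶜ = 0 := by
          rw [← he0] at hAε
          simpa using hAε
        rw [Measure.restrict_eq_zero.2 h12, integral_zero_measure]
        positivity
      · have h13 : ∫ x in Aᶜ, ‖x‖ ^ 2 ∂μ ≤
            ∫ x in Aᶜ, (ε / (2 * Q) * ‖x‖ ^ 4 + Q / (2 * ε)) ∂μ := by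
          refine setIntegral_mono i2.integrableOn
            ((i4.const_mul _).add (integrable_const _)).integrableOn fun x => ?_
          have h14 : ε / (2 * Q) * ‖x‖ ^ 4 + Q / (2 * ε) - ‖x‖ ^ 2 =
              (ε * ‖x‖ ^ 2 - Q) ^ 2 / (2 * Q * ε) := by
            field_simp
            ring
          have h15 : 0 ≤ (ε * ‖x‖ ^ 2 - Q) ^ 2 / (2 * Q * ε) := by positivity
          show ‖x‖ ^ 2 ≤ ε / (2 * Q) * ‖x‖ ^ 4 + Q / (2 * ε)
          linarith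
        have h16 : ∫ x in Aᶜ, (ε / (2 * Q) * ‖x‖ ^ 4 + Q / (2 * ε)) ∂μ =
            ε / (2 * Q) * ∫ x in Aᶜ, ‖x‖ ^ 4 ∂μ + a * (Q / (2 * ε)) := by
          rw [integral_add (i4.const_mul _).integrableOn (integrable_const _).integrableOn,
            integral_const_mul, setIntegral_const, smul_eq_mul]
        have h17 : ∫ x in Aᶜ, ‖x‖ ^ 4 ∂μ ≤ Q ^ 2 :=
          (setIntegral_le_integral i4 (Filter.Eventually.of_forall fun x => by positivity)).trans h4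
        have h18 : ε / (2 * Q) * ∫ x in Aᶜ, ‖x‖ ^ 4 ∂μ ≤ ε / (2 * Q) * Q ^ 2 :=
          mul_le_mul_of_nonneg_left h17 (by positivity)
        have h19 : a * (Q / (2 * ε)) ≤ ε ^ 2 * (Q / (2 * ε)) :=
          mul_le_mul_of_nonneg_right ha1 (by positivity)
        have h20 : ε / (2 * Q) * Q ^ 2 + ε ^ 2 * (Q / (2 * ε)) = Q * ε := by
          field_simp
          ring
        linarith
  have hsplit : ∫ x, (f x - c) ^ 2 ∂μ =
      ∫ x in A, (f x - c) ^ 2 ∂μ + ∫ x in Aᶜ, (f x - c) ^ 2 ∂μ :=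
    (integral_add_compl hA i0).symm
  have hcompl : ∫ x in Aᶜ, (f x - c) ^ 2 ∂μ ≤ 2 * (Q * ε) + 2 * (f 0 - c) ^ 2 * ε ^ 2 := by
    have h21 : ∫ x in Aᶜ, (f x - c) ^ 2 ∂μ ≤ ∫ x in Aᶜ, (2 * ‖x‖ ^ 2 + 2 * (f 0 - c) ^ 2) ∂μ := by
      refine setIntegral_mono i0.integrableOn
        ((i2.const_mul 2).add (integrable_const _)).integrableOn fun x => ?_
      have := hlip2 x
      show (f x - c) ^ 2 ≤ 2 * ‖x‖ ^ 2 + 2 * (f 0 - c) ^ 2
      nlinarith [sq_nonneg ((f x - f 0) - (f 0 - c))]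
    have h22 : ∫ x in Aᶜ, (2 * ‖x‖ ^ 2 + 2 * (f 0 - c) ^ 2) ∂μ =
        2 * ∫ x in Aᶜ, ‖x‖ ^ 2 ∂μ + a * (2 * (f 0 - c) ^ 2) := by
      rw [integral_add (i2.const_mul _).integrableOn (integrable_const _).integrableOn,
        integral_const_mul, setIntegral_const, smul_eq_mul]
    have h23 : a * (2 * (f 0 - c) ^ 2) ≤ ε ^ 2 * (2 * (f 0 - c) ^ 2) :=
      mul_le_mul_of_nonneg_right ha1 (by positivity)
    linarith
  have h24 : (f 0 - c) ^ 2 * ε ^ 2 ≤ 8 / 3 * (M + D) * ε ^ 2 :=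
    mul_le_mul_of_nonneg_right hc2 (sq_nonneg _)
  have h25 : D * ε ^ 2 ≤ D * (1 / 4) := mul_le_mul_of_nonneg_left hε4 hD
  have h26 : 0 ≤ M * ε ^ 2 := by positivity
  rw [hsplit]
  nlinarith

end Pool.Agent.H888R2.KB
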