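import Pool.Agent.H888R2.KB.Defs
import Pool.Agent.H888R2.KT.T1

/-!
# Task T1: the marginal of a block
-/

set_option autoImplicit false

namespace Pool.Agent.H888R2.KB

open MeasureTheory Set Matrix Pool.Agent.H888R2.KC Pool.Agent.H888R2.KT Pool.Agent.H888R2.KB
open scoped ENNReal InnerProductSpace
open Pool.Agent.H212R2.KLS (mu Bdd ev E V OpLe lm Dens toM ofM mv)

variable {b m n : ℕ}

namespace T1x

open Pool.Agent.H888R2.KT.T1x

theorem ap_mg {ι : Type} [Fintype ι] (i : Fin b) (A : EuclideanSpace ℝ ι →ₗ[ℝ] EuclideanSpace ℝ ι)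
    (x : EuclideanSpace ℝ ι) (y : EuclideanSpace ℝ (Ot i × ι)) :
    ap i A (mg i (x, y)) = mg i (A x, y) := by
  ext p
  obtain ⟨k, a⟩ := p
  by_cases h : k = i
  · subst h
    rw [mg_j]
    change (if k = k then A (cp k (mg k (x, y))) a else (mg k (x, y)) (k, a)) = A x a
    rw [if_pos rfl, cp_mg]
  · rw [show mg i (A x, y) (k, a) = y (⟨k, h⟩, a) from mg_o i (A x, y) ⟨k, h⟩ a]
    change (if k = i then A (cp k (mg i (x, y))) a else (mg i (x, y)) (k, a)) = y (⟨k, h⟩, a)
    rw [if_neg h]
    exact mg_o i (x, y) ⟨k, h⟩ a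

end T1x

open T1x Pool.Agent.H888R2.KT.T1x in
/-- T1: the marginals -/
theorem marginal {ρ : EuclideanSpace ℝ (Fin b × (Fin m × Fin n)) → ℝ} (hρ : DB ρ) (hb : Bdd ρ)
    (h1 : mu ρ univ = 1) (i : Fin b) :
    ∃ ρ' : E m n → ℝ, Dens m n ρ' ∧ Bdd ρ' ∧ (mu ρ).map (cp i) = mu ρ' := by
  obtain ⟨B, hB⟩ := bdd_of_finite ρ hρ.nonneg hρ.meas hρ.logc (by rw [h1]; exact ENNReal.one_ne_top)
    (by
      intro h0
      rw [h0] at h1
      simp at h1)
  have hfin := me_lt i ρ hb B hB
  have hmeas := me_meas i ρ hρ.meas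
  refine ⟨fun x => (me i ρ x).toReal, ⟨fun x => ENNReal.toReal_nonneg, hmeas.ennreal_toReal,
    ?_, ?_⟩, ?_, ?_⟩
  · intro x y t ht0 ht1
    have t1 : 0 < 1 - t := by linarith
    have hsec : ∀ x : EuclideanSpace ℝ (Fin m × Fin n),
        Measurable fun u : EuclideanSpace ℝ (Ot i × (Fin m × Fin n)) =>
        ENNReal.ofReal (ρ (mg i (x, u))) := fun x =>
      (hρ.meas.comp ((mg_mp i).measurable.comp measurable_prodMk_left)).ennreal_ofReal
    have key := Pool.Agent.H212R2.KLS.PL
      (volume : Measure (EuclideanSpace ℝ (Ot i × (Fin m × Fin n)))) t ht0 ht1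
      (fun u => ENNReal.ofReal (ρ (mg i (x, u)))) (fun u => ENNReal.ofReal (ρ (mg i (y, u))))
      (fun u => ENNReal.ofReal (ρ (mg i ((1 - t) • x + t • y, u)))) (hsec _) (hsec _) (hsec _) (by
        intro u v
        rw [ENNReal.ofReal_rpow_of_nonneg (hρ.nonneg _) t1.le,
          ENNReal.ofReal_rpow_of_nonneg (hρ.nonneg _) ht0.le,
          ← ENNReal.ofReal_mul (Real.rpow_nonneg (hρ.nonneg _) _), mg_lin]
        exact ENNReal.ofReal_le_ofReal (hρ.logc _ _ t ht0 ht1))
    change (me i ρ x).toReal ^ (1 - t) * (me i ρ y).toReal ^ t ≤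
      (me i ρ ((1 - t) • x + t • y)).toReal
    rw [ENNReal.toReal_rpow, ENNReal.toReal_rpow, ← ENNReal.toReal_mul]
    exact ENNReal.toReal_mono (hfin _).ne key
  · intro g hg x
    have h3 : me i ρ (lm g x) = me i ρ x := by
      unfold me
      refine lintegral_congr fun y => ?_
      have e : mg i (lm g x, y) = ap i (lml g) (mg i (x, y)) := (ap_mg i (lml g) x y).symm
      rw [e, hρ.inv i g hg]
    change (me i ρ (lm g x)).toReal = (me i ρ x).toReal
    rw [h3]
  · obtain ⟨R, hR⟩ := hb
    refine ⟨R, fun x hx => ?_⟩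
    have : me i ρ x = 0 := by
      unfold me
      have : ∀ y : EuclideanSpace ℝ (Ot i × (Fin m × Fin n)),
          ENNReal.ofReal (ρ (mg i (x, y))) = 0 := by
        intro y
        rw [hR _ (lt_of_lt_of_le hx (le_norm_mg i x y))]
        simp
      simp [this]
    change (me i ρ x).toReal = 0
    rw [this]
    simp
  · have hcp : Measurable (cp (ι := Fin m × Fin n) i) :=
      (LinearMap.continuous_of_finiteDimensional _).measurable
    ext S hS
    rw [Measure.map_apply hcp hS, mu, mu, withDensity_apply _ (hcp hS), withDensity_apply _ hS,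
      ← lintegral_indicator (hcp hS), ← lintegral_indicator hS]
    have hF : Measurable ((cp (ι := Fin m × Fin n) i ⁻¹' S).indicator
        fun z => ENNReal.ofReal (ρ z)) :=
      hρ.meas.ennreal_ofReal.indicator (hcp hS)
    have hG : AEMeasurable (fun z : EuclideanSpace ℝ (Fin m × Fin n) ×
          EuclideanSpace ℝ (Ot i × (Fin m × Fin n)) =>
        (cp (ι := Fin m × Fin n) i ⁻¹' S).indicator (fun z => ENNReal.ofReal (ρ z)) (mg i z))
        ((volume : Measure (EuclideanSpace ℝ (Fin m × Fin n))).prod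
          (volume : Measure (EuclideanSpace ℝ (Ot i × (Fin m × Fin n))))) :=
      (hF.comp (mg_mp i).measurable).aemeasurable
    rw [← (mg_mp i).lintegral_comp hF, lintegral_prod _ hG]
    refine lintegral_congr fun x => ?_
    by_cases hx : x ∈ S
    · rw [indicator_of_mem hx, ENNReal.ofReal_toReal (hfin x).ne]
      refine lintegral_congr fun y => ?_
      rw [indicator_of_mem]
      rw [mem_preimage, cp_mg]
      exact hx
    · rw [indicator_of_notMem hx]
      have : ∀ y : EuclideanSpace ℝ (Ot i × (Fin m × Fin n)),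
          (cp (ι := Fin m × Fin n) i ⁻¹' S).indicator
          (fun z => ENNReal.ofReal (ρ z)) (mg i (x, y)) = 0 := by
        intro y
        rw [indicator_of_notMem]
        rw [mem_preimage, cp_mg]
        exact hx
      simp [this]

end Pool.Agent.H888R2.KB
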