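import Pool.Agent.H888R2.KB.Defs
import Pool.Agent.H888R2.KB.T1
import Pool.Agent.H888R2.KT.C1
import Pool.Agent.H212R2.KLS.T2
import Pool.Agent.H212R2.KLS.T3

/-!
# T2: tails of the operator norms of the blocks
-/

set_option autoImplicit false

namespace Pool.Agent.H888R2.KB

open MeasureTheory Set Matrix Pool.Agent.H888R2.KC Pool.Agent.H888R2.KT
open scoped ENNReal InnerProductSpace
open Pool.Agent.H212R2.KLS (mu Bdd ev E V OpLe lm Dens toM ofM mv)

namespace T2x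

theorem opLe_closed {m n : ℕ} (r : ℝ) : IsClosed {y : E m n | OpLe r y} := by
  have h : {y : E m n | OpLe r y} = ⋂ v : V n, {y : E m n | ‖mv y v‖ ≤ r * ‖v‖} := by
    ext y
    simp only [mem_iInter]
    exact Iff.rfl
  rw [h]
  refine isClosed_iInter fun v => ?_
  exact isClosed_le (Pool.Agent.H212R2.KLS.T2.mv_continuous v).norm continuous_const

end T2x

section

variable {b m n : ℕ}

theorem op_tail (hm : 1 ≤ m) (hn : 1 ≤ n) (hnm : n ≤ m)
    {ρ : EuclideanSpace ℝ (Fin b × (Fin m × Fin n)) → ℝ} (hρ : DB ρ) (hb : Bdd ρ)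
    (h1 : mu ρ univ = 1) (s : ℝ) (hs : 0 < s)
    (hmom : ∀ θ, ∫ x, ⟪θ, x⟫_ℝ ^ 2 ∂(mu ρ) ≤ s * ‖θ‖ ^ 2) (t : ℝ) :
    mu ρ {x | ¬ ∀ i, OpLe (20 * t * Real.sqrt (m * s)) (cp i x)} ≤
      b * ENNReal.ofReal (Real.exp (m * (4 - t / 2))) := by
  have hcont : ∀ j : Fin b, Continuous (cp (ι := Fin m × Fin n) j) := fun j =>
    LinearMap.continuous_of_finiteDimensional _
  have hone : ∀ j : Fin b, mu ρ ((cp (ι := Fin m × Fin n) j) ⁻¹'
      {y : E m n | ¬ OpLe (20 * t * Real.sqrt (m * s)) y}) ≤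
      ENNReal.ofReal (Real.exp (m * (4 - t / 2))) := by
    intro j
    obtain ⟨ρ', hD, hb', hmap⟩ := marginal hρ hb h1 j
    have hm1 : mu ρ' univ = 1 := by
      rw [← hmap, Measure.map_apply (hcont j).measurable MeasurableSet.univ, preimage_univ, h1]
    have hmom' : ∀ θ : E m n, ∫ x, ⟪θ, x⟫_ℝ ^ 2 ∂(mu ρ') ≤ s * ‖θ‖ ^ 2 := by
      intro θ
      have e1 : ∫ x, ⟪θ, x⟫_ℝ ^ 2 ∂(mu ρ') = ∫ x, ⟪inj θ j, x⟫_ℝ ^ 2 ∂(mu ρ) := by
        rw [← hmap, integral_map (hcont j).measurable.aemeasurable]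
        · refine integral_congr_ae (ae_of_all _ fun x => ?_)
          simp only [inner_inj]
        · exact Continuous.aestronglyMeasurable (by fun_prop)
      have e2 : ‖inj θ j‖ ^ 2 = ‖θ‖ ^ 2 := by
        rw [← real_inner_self_eq_norm_sq, ← real_inner_self_eq_norm_sq, inner_inj,
          cp_inj, if_pos rfl]
      rw [e1, ← e2]
      exact hmom (inj θ j)
    have ht := Pool.Agent.H212R2.KLS.op_tail hm hn hnm ρ' hD hm1 s hs
      (fun v hv r => Pool.Agent.H212R2.KLS.mv_tail hm ρ' hD hb' hm1 s hs hmom' v hv r) t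
    have hS : MeasurableSet {y : E m n | ¬ OpLe (20 * t * Real.sqrt (m * s)) y} :=
      (T2x.opLe_closed (20 * t * Real.sqrt (m * s))).measurableSet.compl
    rw [← hmap, Measure.map_apply (hcont j).measurable hS] at ht
    exact ht
  calc mu ρ {x | ¬ ∀ i, OpLe (20 * t * Real.sqrt (m * s)) (cp i x)}
      ≤ mu ρ (⋃ j : Fin b, (cp (ι := Fin m × Fin n) j) ⁻¹'
          {y : E m n | ¬ OpLe (20 * t * Real.sqrt (m * s)) y}) := by
        refine measure_mono ?_
        intro x hx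
        have hx' : ¬ ∀ i, OpLe (20 * t * Real.sqrt (m * s)) (cp i x) := hx
        rw [not_forall] at hx'
        obtain ⟨j, hj⟩ := hx'
        exact mem_iUnion.2 ⟨j, hj⟩
    _ ≤ ∑ j : Fin b, mu ρ ((cp (ι := Fin m × Fin n) j) ⁻¹'
          {y : E m n | ¬ OpLe (20 * t * Real.sqrt (m * s)) y}) := measure_iUnion_fintype_le _ _
    _ ≤ ∑ _j : Fin b, ENNReal.ofReal (Real.exp (m * (4 - t / 2))) :=
        Finset.sum_le_sum fun j _ => hone j
    _ = b * ENNReal.ofReal (Real.exp (m * (4 - t / 2))) := by simp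

end

end Pool.Agent.H888R2.KB
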