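import Pool.Agent.H888R2.KB.Defs
import Pool.Agent.H888R2.KT.V1

/-!
# T3: fourth moments of log-concave measures
-/

set_option autoImplicit false

namespace Pool.Agent.H888R2.KB

open MeasureTheory Set Matrix Pool.Agent.H888R2.KC Pool.Agent.H888R2.KT
open scoped ENNReal InnerProductSpace
open Pool.Agent.H212R2.KLS (mu Bdd ev E V OpLe lm Dens toM ofM mv)

namespace T3x

theorem summ : Summable fun k : ℕ => ((k : ℝ) + 1) ^ 4 * Real.exp (-(k : ℝ)) := by
  have h1 := Real.summable_pow_mul_exp_neg_nat_mul 4 (r := 1) one_pos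
  have h2 := (summable_nat_add_iff 1).mpr h1
  have h3 := h2.mul_right (Real.exp 1)
  refine h3.congr fun k => ?_
  push_cast
  rw [mul_assoc, ← Real.exp_add]
  congr 2
  ring

theorem ball_null {κ : Type} [Fintype κ] {ρ : EuclideanSpace ℝ κ → ℝ} (hm : Measurable ρ)
    (hb : Bdd ρ) : ∃ R, (mu ρ) (Metric.closedBall 0 R)ᶜ = 0 := by
  obtain ⟨R, hR⟩ := hb
  refine ⟨R, ?_⟩
  rw [mu, withDensity_apply_eq_zero' (hm.ennreal_ofReal.aemeasurable)]
  refine measure_mono_null ?_ (measure_empty (μ := (volume : Measure (EuclideanSpace ℝ κ))))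
  intro x hx
  refine hx.1 ?_
  have h2 : R < ‖x‖ := by
    have := hx.2
    rw [mem_compl_iff, mem_closedBall_zero_iff, not_le] at this
    exact this
  simp [hR x h2]

theorem int_pow {κ : Type} [Fintype κ] {ρ : EuclideanSpace ℝ κ → ℝ} (hm : Measurable ρ)
    (hb : Bdd ρ) (h1 : mu ρ univ = 1) (j : ℕ) : Integrable (fun x => ‖x‖ ^ j) (mu ρ) := by
  have hp : IsProbabilityMeasure (mu ρ) := ⟨h1⟩
  obtain ⟨R, hR⟩ := ball_null hm hb
  have hball : ∀ᵐ x ∂(mu ρ), x ∈ Metric.closedBall (0 : EuclideanSpace ℝ κ) R := by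
    rw [ae_iff]
    exact hR
  refine Integrable.of_bound (by fun_prop) (|R| ^ j) (hball.mono fun x hx => ?_)
  rw [mem_closedBall_zero_iff] at hx
  rw [Real.norm_of_nonneg (by positivity)]
  exact pow_le_pow_left₀ (norm_nonneg _) (hx.trans (le_abs_self R)) j

end T3x

open T3x in
theorem fourth : ∃ C : ℝ, 0 < C ∧ ∀ {κ : Type} [Fintype κ] (ρ : EuclideanSpace ℝ κ → ℝ), LC ρ →
    mu ρ univ = 1 → ∀ σ : ℝ, 0 < σ → ∫ x, ‖x‖ ^ 2 ∂(mu ρ) ≤ σ ^ 2 →
    ∫ x, ‖x‖ ^ 4 ∂(mu ρ) ≤ C * σ ^ 4 := by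
  set Z : ℝ := ∑' k : ℕ, ((k : ℝ) + 1) ^ 4 * Real.exp (-(k : ℝ)) with hZ
  have hZ0 : 0 < Z := by
    rw [hZ]
    exact summ.tsum_pos (fun k => by positivity) 0 (by positivity)
  refine ⟨81 * Z, by positivity, ?_⟩
  intro κ _ ρ hρ h1 σ hσ hmom
  have hp : IsProbabilityMeasure (mu ρ) := ⟨h1⟩
  have h3σ : 0 < 3 * σ := by positivity
  have hint2 := int_pow hρ.meas hρ.bdd h1 2
  set B : ℕ → Set (EuclideanSpace ℝ κ) := fun k => (Metric.closedBall 0 (3 * σ * k))ᶜ with hB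
  have hBm : ∀ k, MeasurableSet (B k) := fun k => measurableSet_closedBall.compl
  have htail : ∀ k : ℕ, mu ρ (B k) ≤ ENNReal.ofReal (Real.exp (-(k : ℝ))) := by
    intro k
    rcases Nat.eq_zero_or_pos k with hk | hk
    · rw [hk]
      simp only [Nat.cast_zero, neg_zero, Real.exp_zero, ENNReal.ofReal_one]
      exact prob_le_one
    · have hk1 : (1 : ℝ) ≤ k := by exact_mod_cast hk
      have h := borell ρ hρ.nonneg hρ.meas hρ.logc h1 σ hσ hint2 hmom (3 * σ * k) (by nlinarith)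
      have e : 3 * σ * (k : ℝ) / (3 * σ) = k := by field_simp
      rw [e] at h
      exact h
  have hpt : ∀ x : EuclideanSpace ℝ κ, ENNReal.ofReal (‖x‖ ^ 4) ≤
      ∑' k : ℕ, (B k).indicator (fun _ => ENNReal.ofReal ((3 * σ) ^ 4 * ((k : ℝ) + 1) ^ 4)) x := by
    intro x
    by_cases hx : ‖x‖ = 0
    · rw [hx]; simp
    have hx0 : 0 < ‖x‖ := lt_of_le_of_ne (norm_nonneg x) (Ne.symm hx)
    have hc0 : 0 < ⌈‖x‖ / (3 * σ)⌉₊ := Nat.ceil_pos.mpr (by positivity)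
    obtain ⟨k, hk⟩ : ∃ k, ⌈‖x‖ / (3 * σ)⌉₊ = k + 1 := ⟨_, (Nat.succ_pred_eq_of_pos hc0).symm⟩
    have hk1 : ‖x‖ ≤ 3 * σ * ((k : ℝ) + 1) := by
      have h := Nat.le_ceil (‖x‖ / (3 * σ))
      rw [hk, div_le_iff₀ h3σ] at h
      push_cast at h
      linarith
    have hk2 : 3 * σ * (k : ℝ) < ‖x‖ := by
      have h : (k : ℝ) < ‖x‖ / (3 * σ) := by
        rw [← Nat.lt_ceil, hk]
        exact Nat.lt_succ_self k
      rw [lt_div_iff₀ h3σ] at h
      linarith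
    have hmem : x ∈ B k := by
      simp only [hB, mem_compl_iff, mem_closedBall_zero_iff, not_le]
      exact hk2
    refine le_trans ?_ (ENNReal.le_tsum k)
    rw [indicator_of_mem hmem]
    apply ENNReal.ofReal_le_ofReal
    rw [← mul_pow]
    exact pow_le_pow_left₀ (norm_nonneg x) hk1 4
  have hlin : ∫⁻ x, ENNReal.ofReal (‖x‖ ^ 4) ∂(mu ρ) ≤ ENNReal.ofReal (81 * Z * σ ^ 4) := by
    calc ∫⁻ x, ENNReal.ofReal (‖x‖ ^ 4) ∂(mu ρ)
        ≤ ∫⁻ x, ∑' k : ℕ, (B k).indicator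
            (fun _ => ENNReal.ofReal ((3 * σ) ^ 4 * ((k : ℝ) + 1) ^ 4)) x ∂(mu ρ) :=
          lintegral_mono hpt
      _ = ∑' k : ℕ, ENNReal.ofReal ((3 * σ) ^ 4 * ((k : ℝ) + 1) ^ 4) * mu ρ (B k) := by
          rw [lintegral_tsum fun k => (measurable_const.indicator (hBm k)).aemeasurable]
          refine tsum_congr fun k => ?_
          rw [lintegral_indicator_const (hBm k)]
      _ ≤ ∑' k : ℕ, ENNReal.ofReal ((3 * σ) ^ 4 * ((k : ℝ) + 1) ^ 4) *
            ENNReal.ofReal (Real.exp (-(k : ℝ))) :=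
          ENNReal.tsum_le_tsum fun k => mul_le_mul_right (htail k) _
      _ = ∑' k : ℕ, ENNReal.ofReal ((3 * σ) ^ 4 * (((k : ℝ) + 1) ^ 4 * Real.exp (-(k : ℝ)))) := by
          refine tsum_congr fun k => ?_
          rw [← ENNReal.ofReal_mul (by positivity), mul_assoc]
      _ = ENNReal.ofReal (∑' k : ℕ, (3 * σ) ^ 4 * (((k : ℝ) + 1) ^ 4 * Real.exp (-(k : ℝ)))) :=
          (ENNReal.ofReal_tsum_of_nonneg (fun k => by positivity) (summ.mul_left _)).symm
      _ = ENNReal.ofReal (81 * Z * σ ^ 4) := by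
          rw [tsum_mul_left, ← hZ]
          congr 1
          ring
  rw [integral_eq_lintegral_of_nonneg_ae (Filter.Eventually.of_forall fun x => by positivity)
    (by fun_prop)]
  exact ENNReal.toReal_le_of_le_ofReal (by positivity) hlin

end Pool.Agent.H888R2.KB
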