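import Pool.Agent.H888R2.KB.Defs

/-!
# Task T4: the second moment of the norm
-/

set_option autoImplicit false

namespace Pool.Agent.H888R2.KB

open MeasureTheory Set Matrix Pool.Agent.H888R2.KC Pool.Agent.H888R2.KT
open scoped ENNReal InnerProductSpace
open Pool.Agent.H212R2.KLS (mu Bdd ev E V OpLe lm Dens toM ofM mv)

namespace T4x

theorem ae_bdd {F : Type*} [NormedAddCommGroup F] [MeasureSpace F] [OpensMeasurableSpace F]
    (ρ : F → ℝ) (R : ℝ) (hR : ∀ x, R < ‖x‖ → ρ x = 0) : ∀ᵐ x ∂(mu ρ), ‖x‖ ≤ R := by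
  rw [ae_iff]
  apply le_antisymm _ zero_le
  have hms : MeasurableSet {x : F | ¬ ‖x‖ ≤ R} := by
    have : {x : F | ¬ ‖x‖ ≤ R} = {x | R < ‖x‖} := by ext x; simp
    rw [this]
    exact (isOpen_lt continuous_const continuous_norm).measurableSet
  rw [mu, withDensity_apply _ hms]
  calc ∫⁻ x in {x : F | ¬ ‖x‖ ≤ R}, ENNReal.ofReal (ρ x) ≤
      ∫⁻ _x in {x : F | ¬ ‖x‖ ≤ R}, 0 := by
        apply setLIntegral_mono' hms
        intro x hx
        have hx' : ¬ ‖x‖ ≤ R := hx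
        rw [hR x (not_le.1 hx'), ENNReal.ofReal_zero]
    _ = 0 := by simp

open Classical in
theorem gen {κ : Type} [Fintype κ] (s : ℝ) {ρ : EuclideanSpace ℝ κ → ℝ}
    (hb : Bdd ρ) (h1 : mu ρ univ = 1)
    (hmom : ∀ θ, ∫ x, ⟪θ, x⟫_ℝ ^ 2 ∂(mu ρ) ≤ s * ‖θ‖ ^ 2) :
    ∫ x, ‖x‖ ^ 2 ∂(mu ρ) ≤ s * Fintype.card κ := by
  have : IsProbabilityMeasure (mu ρ) := ⟨h1⟩
  obtain ⟨R, hR⟩ := hb
  have hint : ∀ i : κ, Integrable (fun X => ⟪EuclideanSpace.single i (1 : ℝ), X⟫_ℝ ^ 2) (mu ρ) := by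
    intro i
    refine Integrable.of_bound ?_ ((‖EuclideanSpace.single i (1 : ℝ)‖ * R) ^ 2) ?_
    · exact ((continuous_const.inner continuous_id).pow 2).aestronglyMeasurable
    · filter_upwards [ae_bdd ρ R hR] with x hx
      rw [Real.norm_eq_abs, abs_of_nonneg (sq_nonneg _)]
      have h2 := abs_real_inner_le_norm (EuclideanSpace.single i (1 : ℝ)) x
      have h3 : |⟪EuclideanSpace.single i (1 : ℝ), x⟫_ℝ| ≤ ‖EuclideanSpace.single i (1 : ℝ)‖ * R :=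
        le_trans h2 (mul_le_mul_of_nonneg_left hx (norm_nonneg _))
      rw [← sq_abs]
      exact pow_le_pow_left₀ (abs_nonneg _) h3 2
  have e : ∀ X : EuclideanSpace ℝ κ,
      ‖X‖ ^ 2 = ∑ i, ⟪EuclideanSpace.single i (1 : ℝ), X⟫_ℝ ^ 2 := by
    intro X
    rw [EuclideanSpace.real_norm_sq_eq]
    refine Finset.sum_congr rfl (fun i _ => ?_)
    rw [EuclideanSpace.inner_single_left]
    simp
  simp only [e]
  rw [integral_finsetSum _ fun i _ => hint i]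
  calc ∑ i : κ, ∫ X, ⟪EuclideanSpace.single i (1 : ℝ), X⟫_ℝ ^ 2 ∂(mu ρ) ≤ ∑ _i : κ, s := by
        apply Finset.sum_le_sum
        intro i _
        refine le_trans (hmom _) ?_
        rw [EuclideanSpace.norm_single]
        simp
    _ = s * Fintype.card κ := by simp [mul_comm]

end T4x

variable {b m n : ℕ}

theorem second (s : ℝ) (hs : 0 < s) {ρ : EuclideanSpace ℝ (Fin b × (Fin m × Fin n)) → ℝ}
    (hb : Bdd ρ) (h1 : mu ρ univ = 1)
    (hmom : ∀ θ, ∫ x, ⟪θ, x⟫_ℝ ^ 2 ∂(mu ρ) ≤ s * ‖θ‖ ^ 2) :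
    ∫ x, ‖x‖ ^ 2 ∂(mu ρ) ≤ s * (b * (m * n)) := by
  have h := T4x.gen s hb h1 hmom
  have e : (Fintype.card (Fin b × (Fin m × Fin n)) : ℝ) = b * (m * n) := by
    simp
  rwa [e] at h

end Pool.Agent.H888R2.KB
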