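import Pool.Agent.H888R2.KB.Defs
import Pool.Agent.H888R2.KB.D1
import Pool.Agent.H888R2.KB.D2
import Pool.Agent.H888R2.KB.F0
import Pool.Agent.H888R2.KB.T2
import Pool.Agent.H888R2.KB.T3
import Pool.Agent.H888R2.KB.T4

/-!
# KLS for blocks: the core estimate for bounded support (task F1)
-/

set_option autoImplicit false

namespace Pool.Agent.H888R2.KB

open MeasureTheory Set Matrix Pool.Agent.H888R2.KC Pool.Agent.H888R2.KT Pool.Agent.H888R2.KB
open scoped ENNReal InnerProductSpace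
open Pool.Agent.H212R2.KLS (mu Bdd ev E V OpLe lm Dens toM ofM mv)

namespace F1x

theorem intg {F : Type*} [NormedAddCommGroup F] [NormedSpace ℝ F] [FiniteDimensional ℝ F]
    [MeasurableSpace F] [BorelSpace F] (μ : Measure F) [IsFiniteMeasure μ]
    (hb : ∃ R, μ (Metric.closedBall 0 R)ᶜ = 0) (g : F → ℝ) (hg : Continuous g) :
    Integrable g μ := by
  obtain ⟨R, hR⟩ := hb
  have : ProperSpace F := FiniteDimensional.proper ℝ F
  obtain ⟨C, hC⟩ := (isCompact_closedBall (0 : F) R).exists_bound_of_continuousOn hg.continuousOn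
  have h1 : Metric.closedBall (0 : F) R ∈ ae μ := mem_ae_iff.2 hR
  refine Integrable.of_bound hg.aestronglyMeasurable C ?_
  filter_upwards [h1] with x hx using hC x hx

/-- restriction of the density -/
theorem mu_indicator {F : Type*} [MeasureSpace F] (ρ : F → ℝ) (U : Set F)
    (hU : MeasurableSet U) : mu (U.indicator ρ) = (mu ρ).restrict U := by
  rw [mu, mu, restrict_withDensity hU, ← withDensity_indicator hU]
  congr 1
  ext x
  by_cases hx : x ∈ U <;> simp [hx]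

theorem mv_cont {b m n : ℕ} (i : Fin b) (v : V n) :
    Continuous fun x : EuclideanSpace ℝ (Fin b × (Fin m × Fin n)) => mv (cp i x) v := by
  have h1 : Continuous fun x : EuclideanSpace ℝ (Fin b × (Fin m × Fin n)) => cp i x :=
    LinearMap.continuous_of_finiteDimensional _
  have h2 : Continuous fun X : E m n => mv X v := by
    unfold mv
    refine (PiLp.continuous_toLp 2 _).comp ?_
    refine Continuous.matrix_mulVec ?_ continuous_const
    refine continuous_matrix fun a c => ?_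
    exact (PiLp.continuous_apply 2 _ (a, c))
  exact h2.comp h1

theorem closed_A {b m n : ℕ} (r : ℝ) :
    IsClosed {x : EuclideanSpace ℝ (Fin b × (Fin m × Fin n)) | ∀ i, OpLe r (cp i x)} := by
  have h1 : {x : EuclideanSpace ℝ (Fin b × (Fin m × Fin n)) | ∀ i, OpLe r (cp i x)} =
      ⋂ i : Fin b, ⋂ v : V n, {x | ‖mv (cp i x) v‖ ≤ r * ‖v‖} := by
    ext x
    simp [OpLe]
  rw [h1]
  exact isClosed_iInter fun i => isClosed_iInter fun v =>
    isClosed_le (mv_cont i v).norm continuous_const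

/-- `m ^ 2 ≤ exp (2 m)` -/
theorem sq_le_exp (m : ℕ) : (m : ℝ) ^ 2 ≤ Real.exp (2 * m) := by
  have h1 : (m : ℝ) ≤ Real.exp m := by
    have := Real.add_one_le_exp (m : ℝ)
    linarith
  calc (m : ℝ) ^ 2 ≤ (Real.exp m) ^ 2 := pow_le_pow_left₀ (Nat.cast_nonneg m) h1 2
    _ = Real.exp (2 * m) := by rw [← Real.exp_nat_mul]; norm_num

end F1x

open F1x in
theorem core : ∃ C : ℝ, 0 < C ∧ ∀ {b m n : ℕ}, 1 ≤ b → 3 ≤ m → 1 ≤ n → n ≤ m →
    ∀ ρ : EuclideanSpace ℝ (Fin b × (Fin m × Fin n)) → ℝ, DB ρ → Bdd ρ → mu ρ univ = 1 →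
    ∀ s : ℝ, 0 < s → (∀ θ, ∫ x, ⟪θ, x⟫_ℝ ^ 2 ∂(mu ρ) ≤ s * ‖θ‖ ^ 2) →
    ∀ f : EuclideanSpace ℝ (Fin b × (Fin m × Fin n)) → ℝ, ContDiff ℝ 1 f →
    (∀ x, ‖fderiv ℝ f x‖ ≤ 1) →
    ∫ x, f x ^ 2 ∂(mu ρ) - (∫ x, f x ∂(mu ρ)) ^ 2 ≤ C * fb b m ^ 2 * s := by
  obtain ⟨C₄, hC₄, hfourth⟩ := fourth
  refine ⟨9 * (9600 * 256) + 8 + 2 * Real.sqrt C₄, by positivity, ?_⟩
  intro b m n hb1 hm hn hnm ρ hρ hb h1 s hs hmom f hf hf1
  have hprob : IsProbabilityMeasure (mu ρ) := ⟨h1⟩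
  have hm3 : (3:ℝ) ≤ m := by exact_mod_cast hm
  have hm0 : (0:ℝ) < m := by linarith
  have hbb : (1:ℝ) ≤ b := by exact_mod_cast hb1
  have hb0 : (0:ℝ) < b := by linarith
  have hnm' : (n:ℝ) ≤ m := by exact_mod_cast hnm
  have hlog : 0 ≤ Real.log b := Real.log_nonneg hbb
  have hball : ∃ R, (mu ρ) (Metric.closedBall 0 R)ᶜ = 0 := by
    obtain ⟨R, hR⟩ := hb
    refine ⟨R, ?_⟩
    rw [mu, withDensity_apply_eq_zero' (hρ.meas.ennreal_ofReal.aemeasurable)]
    refine measure_mono_null ?_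
      (measure_empty (μ := (volume : Measure (EuclideanSpace ℝ (Fin b × (Fin m × Fin n))))))
    intro x hx
    refine hx.1 ?_
    have : R < ‖x‖ := by simpa using hx.2
    simp [hR x this]
  -- parameters
  obtain ⟨t, ht⟩ : ∃ t : ℝ, t = 16 + 6 * (Real.log b / m) := ⟨_, rfl⟩
  have hfb1 : 1 ≤ fb b m := by
    unfold fb
    have : 0 ≤ Real.log b / m := by positivity
    linarith
  have ht0 : 0 < t := by rw [ht]; positivity
  have htfb : t ≤ 16 * fb b m := by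
    rw [ht]
    unfold fb
    have : 0 ≤ Real.log b / m := by positivity
    linarith
  obtain ⟨r, hr⟩ : ∃ r : ℝ, r = 20 * t * Real.sqrt (m * s) := ⟨_, rfl⟩
  have hr0 : 0 ≤ r := by rw [hr]; positivity
  obtain ⟨A, hA⟩ : ∃ A : Set (EuclideanSpace ℝ (Fin b × (Fin m × Fin n))),
    A = {x | ∀ i, OpLe r (cp i x)} := ⟨_, rfl⟩
  have hAm : MeasurableSet A := by
    rw [hA]
    exact (closed_A r).measurableSet
  -- the local inequality
  obtain ⟨-, hDA, -, -⟩ := DB.basic hρ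
  have hD := hDA r
  rw [← hA] at hD
  have hle : ∀ x, A.indicator ρ x ≤ ρ x := fun x => Set.indicator_le_self' (fun _ _ => hρ.nonneg _) x
  have hbA : Bdd (A.indicator ρ) := by
    obtain ⟨R, hR⟩ := hb
    refine ⟨R, fun x hx => le_antisymm ?_ (hD.nonneg x)⟩
    rw [← hR x hx]
    exact hle x
  have hres : mu (A.indicator ρ) = (mu ρ).restrict A := mu_indicator ρ A hAm
  have hfinA : mu (A.indicator ρ) univ ≠ ⊤ := by
    rw [hres, Measure.restrict_apply_univ]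
    exact measure_ne_top _ _
  obtain ⟨c, hc⟩ := local_poincare hm hD hbA hfinA r hr0 (fun x hx => by
    have : x ∉ A := by rw [hA]; exact hx
    simp only [Set.indicator_of_notMem this]) f hf
  rw [hres] at hc
  have hdf : Continuous fun x => ‖fderiv ℝ f x‖ ^ 2 := by
    exact ((hf.continuous_fderiv one_ne_zero).norm).pow 2
  have hgrad : ∫ x in A, ‖fderiv ℝ f x‖ ^ 2 ∂(mu ρ) ≤ 1 := by
    calc ∫ x in A, ‖fderiv ℝ f x‖ ^ 2 ∂(mu ρ) ≤ ∫ x, ‖fderiv ℝ f x‖ ^ 2 ∂(mu ρ) :=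
          setIntegral_le_integral (intg (mu ρ) hball _ hdf) (ae_of_all _ fun x => by positivity)
      _ ≤ ∫ x, (1:ℝ) ∂(mu ρ) := by
          refine integral_mono (intg (mu ρ) hball _ hdf) (integrable_const _) fun x => ?_
          exact pow_le_one₀ (norm_nonneg _) (hf1 x)
      _ = 1 := by simp
  obtain ⟨D, hDd⟩ : ∃ D : ℝ, D = 9600 * t ^ 2 * s := ⟨_, rfl⟩
  have hD0 : 0 ≤ D := by rw [hDd]; positivity
  have hloc : ∫ x in A, (f x - c) ^ 2 ∂(mu ρ) ≤ D := by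
    have h2 : 24 * r ^ 2 / m = D := by
      rw [hr, hDd, mul_pow, Real.sq_sqrt (by positivity)]
      field_simp
      ring
    rw [h2] at hc
    exact hc.trans (mul_le_of_le_one_right hD0 hgrad)
  -- the tail
  obtain ⟨ε, hε⟩ : ∃ ε : ℝ, ε = Real.exp (-(2 * m)) / b := ⟨_, rfl⟩
  have hε0 : 0 ≤ ε := by rw [hε]; positivity
  have hexp : Real.exp (-(2 * (m:ℝ))) ≤ 1 / 2 := by
    rw [Real.exp_neg, inv_le_comm₀ (Real.exp_pos _) (by norm_num)]
    have := Real.add_one_le_exp (2 * (m:ℝ))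
    linarith
  have hε2 : ε ≤ 1 / 2 := by
    rw [hε, div_le_iff₀ hb0]
    nlinarith
  have hAε : mu ρ Aᶜ ≤ ENNReal.ofReal (ε ^ 2) := by
    have h2 := op_tail (by omega) hn hnm hρ hb h1 s hs hmom t
    rw [← hr] at h2
    have h3 : Aᶜ = {x | ¬ ∀ i, OpLe r (cp i x)} := by
      rw [hA]
      rfl
    rw [h3]
    refine h2.trans (le_of_eq ?_)
    have h4 : (b : ℝ≥0∞) = ENNReal.ofReal (b : ℝ) := (ENNReal.ofReal_natCast b).symm
    rw [h4, ← ENNReal.ofReal_mul hb0.le]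
    congr 1
    have h5 : (m:ℝ) * (4 - t / 2) = -(2 * m) + -(2 * m) + (-Real.log b + (-Real.log b + -Real.log b)) := by
      rw [ht]
      field_simp
      ring
    rw [h5, Real.exp_add, Real.exp_add, Real.exp_add, Real.exp_add, Real.exp_neg (Real.log b),
      Real.exp_log hb0, hε]
    field_simp
  -- moments
  obtain ⟨M, hM⟩ : ∃ M : ℝ, M = s * (b * m ^ 2) := ⟨_, rfl⟩
  have hM0 : 0 < M := by rw [hM]; positivity
  have h2M : ∫ x, ‖x‖ ^ 2 ∂(mu ρ) ≤ M := by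
    refine (second s hs hb h1 hmom).trans ?_
    rw [hM]
    refine mul_le_mul_of_nonneg_left (mul_le_mul_of_nonneg_left ?_ hb0.le) hs.le
    nlinarith
  have hLC : LC ρ := ⟨hρ.nonneg, hρ.meas, hρ.logc, hb, by rw [h1]; exact ENNReal.one_ne_top, by
    intro h0
    rw [h0] at h1
    simp at h1⟩
  have h4Q : ∫ x, ‖x‖ ^ 4 ∂(mu ρ) ≤ (Real.sqrt C₄ * M) ^ 2 := by
    have h2 := hfourth ρ hLC h1 (Real.sqrt M) (Real.sqrt_pos.2 hM0) (by
      rw [Real.sq_sqrt hM0.le]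
      exact h2M)
    refine h2.trans (le_of_eq ?_)
    have h3 : Real.sqrt M ^ 4 = M ^ 2 := by
      have : Real.sqrt M ^ 4 = (Real.sqrt M ^ 2) ^ 2 := by ring
      rw [this, Real.sq_sqrt hM0.le]
    rw [h3, mul_pow, Real.sq_sqrt hC₄.le]
  -- gluing
  have hglue := glue0 (mu ρ) hball A hAm f hf hf1 c D M (Real.sqrt C₄ * M) ε hD0 hM0.le
    (by positivity) hε0 hε2 hAε h2M h4Q hloc
  have hm2 : (m:ℝ) ^ 2 * Real.exp (-(2 * m)) ≤ 1 := by
    rw [Real.exp_neg, ← div_eq_mul_inv, div_le_one (Real.exp_pos _)]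
    exact sq_le_exp m
  have hMε : M * ε ≤ s := by
    have : M * ε = s * ((m:ℝ) ^ 2 * Real.exp (-(2 * m))) := by
      rw [hM, hε]
      field_simp
    rw [this]
    exact mul_le_of_le_one_right hs.le hm2
  have hMε2 : M * ε ^ 2 ≤ s := by
    have : M * ε ^ 2 = (M * ε) * ε := by ring
    rw [this]
    have h3 : (M * ε) * ε ≤ (M * ε) * 1 := mul_le_mul_of_nonneg_left (by linarith) (by positivity)
    linarith
  have ht2 : t ^ 2 ≤ 256 * fb b m ^ 2 := by
    have := pow_le_pow_left₀ ht0.le htfb 2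
    linarith [this, (by ring : (16 * fb b m) ^ 2 = 256 * fb b m ^ 2)]
  have hfb2 : 1 ≤ fb b m ^ 2 := one_le_pow₀ hfb1
  have htot : ∫ x, (f x - c) ^ 2 ∂(mu ρ) ≤
      (9 * (9600 * 256) + 8 + 2 * Real.sqrt C₄) * fb b m ^ 2 * s := by
    have e1 : 9 * D ≤ 9 * (9600 * 256) * fb b m ^ 2 * s := by
      rw [hDd]
      have := mul_le_mul_of_nonneg_right ht2 hs.le
      nlinarith
    have e2 : 8 * M * ε ^ 2 ≤ 8 * fb b m ^ 2 * s := by
      have : s ≤ fb b m ^ 2 * s := le_mul_of_one_le_left hs.le hfb2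
      nlinarith
    have e3 : 2 * (Real.sqrt C₄ * M) * ε ≤ 2 * Real.sqrt C₄ * fb b m ^ 2 * s := by
      have h3 : s ≤ fb b m ^ 2 * s := le_mul_of_one_le_left hs.le hfb2
      have h4 : M * ε ≤ fb b m ^ 2 * s := hMε.trans h3
      have h5 := mul_le_mul_of_nonneg_left h4 (show 0 ≤ 2 * Real.sqrt C₄ by positivity)
      linarith [h5, (by ring : 2 * Real.sqrt C₄ * (M * ε) = 2 * (Real.sqrt C₄ * M) * ε)]
    nlinarith
  -- variance
  have hf0 : Continuous f := hf.continuous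
  have hi1 : Integrable f (mu ρ) := intg (mu ρ) hball _ hf0
  have hi2 : Integrable (fun x => f x ^ 2) (mu ρ) := intg (mu ρ) hball _ (hf0.pow 2)
  have hexpd : ∫ x, (f x - c) ^ 2 ∂(mu ρ) =
      ∫ x, f x ^ 2 ∂(mu ρ) - 2 * c * ∫ x, f x ∂(mu ρ) + c ^ 2 := by
    have h2 : ∀ x, (f x - c) ^ 2 = f x ^ 2 - 2 * c * f x + c ^ 2 := fun x => by ring
    simp_rw [h2]
    have h3 : ∫ x, (f x ^ 2 - 2 * c * f x + c ^ 2) ∂(mu ρ) =
        ∫ x, (f x ^ 2 - 2 * c * f x) ∂(mu ρ) + ∫ _, c ^ 2 ∂(mu ρ) :=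
      integral_add (hi2.sub (hi1.const_mul (2 * c))) (integrable_const _)
    have h4 : ∫ x, (f x ^ 2 - 2 * c * f x) ∂(mu ρ) =
        ∫ x, f x ^ 2 ∂(mu ρ) - ∫ x, 2 * c * f x ∂(mu ρ) :=
      integral_sub hi2 (hi1.const_mul (2 * c))
    rw [h3, h4, integral_const_mul]
    simp
  have hsq := sq_nonneg (∫ x, f x ∂(mu ρ) - c)
  rw [hexpd] at htot
  nlinarith

end Pool.Agent.H888R2.KB
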