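import Pool.Agent.H888R2.KB.Defs
import Pool.Agent.H888R2.KB.D1
import Pool.Agent.H888R2.KB.F1
import Pool.Agent.H212R2.KLS.G2

/-!
# KB F2 (helper964): removing the boundedness of the support (adapted from KT/G3.lean, helper177)
-/

set_option autoImplicit false

namespace Pool.Agent.H888R2.KB

open MeasureTheory Set Matrix Filter Pool.Agent.H888R2.KC Pool.Agent.H888R2.KT
open scoped ENNReal InnerProductSpace Topology
open Pool.Agent.H212R2.KLS (mu Bdd ev E V OpLe lm Dens toM ofM mv)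

namespace F2x

/-- second moments bound the norm -/
theorem norm_memLp {κ : Type} [Fintype κ] (μ : Measure (EuclideanSpace ℝ κ)) [IsFiniteMeasure μ]
    (s : ℝ) (hmom : ∀ θ : EuclideanSpace ℝ κ,
      ∫⁻ x, ENNReal.ofReal (⟪θ, x⟫_ℝ ^ 2) ∂μ ≤ ENNReal.ofReal (s * ‖θ‖ ^ 2)) :
    MemLp (fun x : EuclideanSpace ℝ κ => ‖x‖) 2 μ := by
  classical
  rw [memLp_two_iff_integrable_sq (by fun_prop)]
  have h1 : ∀ x : EuclideanSpace ℝ κ, ‖x‖ ^ 2 =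
      ∑ p : κ, ⟪EuclideanSpace.single p (1 : ℝ), x⟫_ℝ ^ 2 := by
    intro x
    rw [EuclideanSpace.norm_sq_eq]
    apply Finset.sum_congr rfl
    intro p _
    rw [EuclideanSpace.inner_single_left]
    simp
  simp_rw [h1]
  apply integrable_finsetSum
  intro p _
  refine ⟨by fun_prop, ?_⟩
  rw [hasFiniteIntegral_iff_ofReal (Eventually.of_forall fun x => sq_nonneg _)]
  exact lt_of_le_of_lt (hmom _) ENNReal.ofReal_lt_top

theorem lip {F : Type} [NormedAddCommGroup F] [InnerProductSpace ℝ F] (f : F → ℝ)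
    (hf : ContDiff ℝ 1 f) (hf1 : ∀ x, ‖fderiv ℝ f x‖ ≤ 1) (x : F) : |f x| ≤ |f 0| + ‖x‖ := by
  have h := Convex.norm_image_sub_le_of_norm_fderiv_le (𝕜 := ℝ) (s := univ) (x := 0) (y := x) (f := f)
    (C := 1) (fun y _ => (hf.differentiable (by norm_num)) y) (fun y _ => hf1 y) convex_univ
    (mem_univ _) (mem_univ _)
  rw [sub_zero, one_mul, Real.norm_eq_abs] at h
  have h2 : |f x| ≤ |f x - f 0| + |f 0| := by
    have := abs_add_le (f x - f 0) (f 0)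
    simpa using this
  linarith

end F2x

theorem mainb : ∃ C : ℝ, 0 < C ∧ ∀ {b m n : ℕ}, 1 ≤ b → 3 ≤ m → 1 ≤ n → n ≤ m →
    ∀ ρ : EuclideanSpace ℝ (Fin b × (Fin m × Fin n)) → ℝ, DB ρ → mu ρ univ = 1 →
    ∀ s : ℝ, 0 < s → (∀ θ : EuclideanSpace ℝ (Fin b × (Fin m × Fin n)),
      ∫⁻ x, ENNReal.ofReal (⟪θ, x⟫_ℝ ^ 2) ∂(mu ρ) ≤ ENNReal.ofReal (s * ‖θ‖ ^ 2)) →
    ∀ f : EuclideanSpace ℝ (Fin b × (Fin m × Fin n)) → ℝ, ContDiff ℝ 1 f →
    (∀ x, ‖fderiv ℝ f x‖ ≤ 1) →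
    MemLp f 2 (mu ρ) ∧
      ∫ x, (f x - ∫ y, f y ∂(mu ρ)) ^ 2 ∂(mu ρ) ≤ C * fb b m ^ 2 * s := by
  obtain ⟨C, hC, hcore⟩ := core
  refine ⟨C, hC, ?_⟩
  intro b m n hb1 hm hn hnm ρ hρ h1 s hs hmom f hf hfd
  have hprob : IsProbabilityMeasure (mu ρ) := ⟨h1⟩
  have hfL : MemLp f 2 (mu ρ) := by
    have h2 := (memLp_const (μ := mu ρ) (p := 2) (|f 0|)).add (F2x.norm_memLp (mu ρ) s hmom)
    refine h2.mono hf.continuous.aestronglyMeasurable (Eventually.of_forall fun x => ?_)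
    have h3 := F2x.lip f hf hfd x
    show ‖f x‖ ≤ ‖|f 0| + ‖x‖‖
    rw [Real.norm_eq_abs (f x), Real.norm_of_nonneg (by positivity : 0 ≤ |f 0| + ‖x‖)]
    exact h3
  refine ⟨hfL, ?_⟩
  have hf2 : Integrable (fun x => f x ^ 2) (mu ρ) := hfL.integrable_sq
  have hf1 : Integrable f (mu ρ) := hfL.integrable (by norm_num)
  have key : ∀ᶠ k : ℕ in atTop,
      ((mu ρ).real {x : EuclideanSpace ℝ (Fin b × (Fin m × Fin n)) | ‖x‖ ≤ k})⁻¹ *
        (∫ x in {x : EuclideanSpace ℝ (Fin b × (Fin m × Fin n)) | ‖x‖ ≤ k}, f x ^ 2 ∂(mu ρ)) -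
        (((mu ρ).real {x : EuclideanSpace ℝ (Fin b × (Fin m × Fin n)) | ‖x‖ ≤ k})⁻¹ *
          ∫ x in {x : EuclideanSpace ℝ (Fin b × (Fin m × Fin n)) | ‖x‖ ≤ k}, f x ∂(mu ρ)) ^ 2 ≤
      C * fb b m ^ 2 *
        (s * ((mu ρ).real {x : EuclideanSpace ℝ (Fin b × (Fin m × Fin n)) | ‖x‖ ≤ k})⁻¹) := by
    have hev : ∀ᶠ k : ℕ in atTop,
        0 < (mu ρ).real {x : EuclideanSpace ℝ (Fin b × (Fin m × Fin n)) | ‖x‖ ≤ k} :=
      (H212R2.KLS.g2_mass (mu ρ)).eventually (lt_mem_nhds one_pos)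
    filter_upwards [hev] with k hk
    obtain ⟨B, hBdef⟩ : ∃ B : Set (EuclideanSpace ℝ (Fin b × (Fin m × Fin n))),
      B = {x | ‖x‖ ≤ k} := ⟨_, rfl⟩
    have hBm : MeasurableSet B := by
      rw [hBdef]
      exact measurableSet_le measurable_norm measurable_const
    rw [← hBdef] at hk ⊢
    obtain ⟨M, hM⟩ : ∃ M : ℝ, M = (mu ρ).real B := ⟨_, rfl⟩
    rw [← hM] at hk ⊢
    have hMi : 0 ≤ M⁻¹ := (inv_pos.2 hk).le
    have hd : DB (fun x => M⁻¹ * B.indicator ρ x) := by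
      have hb1 : DB (B.indicator ρ) := by
        rw [hBdef]
        exact (DB.basic hρ).2.2.1 k
      exact (DB.basic hb1).2.2.2 _ hMi
    have hb : Bdd (fun x => M⁻¹ * B.indicator ρ x) := by
      refine ⟨k, fun x hx => ?_⟩
      show M⁻¹ * B.indicator ρ x = 0
      rw [indicator_of_notMem, mul_zero]
      rw [hBdef]
      exact not_le.2 hx
    have hmu := H212R2.KLS.g2_mu ρ hρ.nonneg hρ.meas B hBm M⁻¹ hMi
    have hmass : mu (fun x => M⁻¹ * B.indicator ρ x) univ = 1 := by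
      rw [hmu, Measure.smul_apply, Measure.restrict_apply_univ, smul_eq_mul]
      have h2 : mu ρ B = ENNReal.ofReal M := by
        rw [hM, Measure.real, ENNReal.ofReal_toReal (measure_ne_top _ _)]
      rw [h2, ← ENNReal.ofReal_mul hMi, inv_mul_cancel₀ hk.ne', ENNReal.ofReal_one]
    have hint : ∀ g : EuclideanSpace ℝ (Fin b × (Fin m × Fin n)) → ℝ,
        ∫ x, g x ∂(mu (fun x => M⁻¹ * B.indicator ρ x)) = M⁻¹ * ∫ x in B, g x ∂(mu ρ) := by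
      intro g
      rw [hmu, integral_smul_measure, ENNReal.toReal_ofReal hMi, smul_eq_mul]
    -- a nonnegative function has a smaller integral over `B`
    have hle : ∀ g : EuclideanSpace ℝ (Fin b × (Fin m × Fin n)) → ℝ, Continuous g →
        (∀ x, 0 ≤ g x) → ∀ a : ℝ, 0 ≤ a →
        ∫⁻ x, ENNReal.ofReal (g x) ∂(mu ρ) ≤ ENNReal.ofReal a → ∫ x in B, g x ∂(mu ρ) ≤ a := by
      intro g hg hg0 a ha hga
      rw [integral_eq_lintegral_of_nonneg_ae (Eventually.of_forall hg0)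
        hg.aestronglyMeasurable]
      apply ENNReal.toReal_le_of_le_ofReal ha
      exact le_trans (setLIntegral_le_lintegral _ _) hga
    have hmom' : ∀ θ : EuclideanSpace ℝ (Fin b × (Fin m × Fin n)),
        ∫ x, ⟪θ, x⟫_ℝ ^ 2 ∂(mu (fun x => M⁻¹ * B.indicator ρ x)) ≤ (s * M⁻¹) * ‖θ‖ ^ 2 := by
      intro θ
      rw [hint]
      have h2 := hle (fun x => ⟪θ, x⟫_ℝ ^ 2) (by fun_prop) (fun x => sq_nonneg _) (s * ‖θ‖ ^ 2)
        (by positivity) (hmom θ)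
      calc M⁻¹ * ∫ x in B, ⟪θ, x⟫_ℝ ^ 2 ∂(mu ρ) ≤ M⁻¹ * (s * ‖θ‖ ^ 2) :=
            mul_le_mul_of_nonneg_left h2 hMi
        _ = (s * M⁻¹) * ‖θ‖ ^ 2 := by ring
    have h3 := hcore hb1 hm hn hnm _ hd hb hmass (s * M⁻¹) (mul_pos hs (inv_pos.2 hk)) hmom' f hf
      hfd
    rw [hint, hint] at h3
    exact h3
  have hM1 : Tendsto (fun k : ℕ =>
      ((mu ρ).real {x : EuclideanSpace ℝ (Fin b × (Fin m × Fin n)) | ‖x‖ ≤ k})⁻¹)
      atTop (𝓝 1) := by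
    have := (H212R2.KLS.g2_mass (mu ρ)).inv₀ one_ne_zero
    rwa [inv_one] at this
  have hL : Tendsto (fun k : ℕ =>
      ((mu ρ).real {x : EuclideanSpace ℝ (Fin b × (Fin m × Fin n)) | ‖x‖ ≤ k})⁻¹ *
        (∫ x in {x : EuclideanSpace ℝ (Fin b × (Fin m × Fin n)) | ‖x‖ ≤ k}, f x ^ 2 ∂(mu ρ)) -
        (((mu ρ).real {x : EuclideanSpace ℝ (Fin b × (Fin m × Fin n)) | ‖x‖ ≤ k})⁻¹ *
          ∫ x in {x : EuclideanSpace ℝ (Fin b × (Fin m × Fin n)) | ‖x‖ ≤ k}, f x ∂(mu ρ)) ^ 2)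
      atTop (𝓝 (1 * (∫ x, f x ^ 2 ∂(mu ρ)) - (1 * ∫ x, f x ∂(mu ρ)) ^ 2)) :=
    (hM1.mul (H212R2.KLS.g2_lim (mu ρ) _ hf2)).sub
      ((hM1.mul (H212R2.KLS.g2_lim (mu ρ) _ hf1)).pow 2)
  have hR : Tendsto (fun k : ℕ => C * fb b m ^ 2 *
        (s * ((mu ρ).real {x : EuclideanSpace ℝ (Fin b × (Fin m × Fin n)) | ‖x‖ ≤ k})⁻¹))
      atTop (𝓝 (C * fb b m ^ 2 * (s * 1))) :=
    (hM1.const_mul s).const_mul (C * fb b m ^ 2)
  have hfin := le_of_tendsto_of_tendsto hL hR key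
  have hvar : ∫ x, (f x - ∫ y, f y ∂(mu ρ)) ^ 2 ∂(mu ρ) =
      ∫ x, f x ^ 2 ∂(mu ρ) - (∫ x, f x ∂(mu ρ)) ^ 2 := by
    obtain ⟨a, ha⟩ : ∃ a : ℝ, a = ∫ y, f y ∂(mu ρ) := ⟨_, rfl⟩
    rw [← ha]
    have h2 : ∀ x, (f x - a) ^ 2 = (f x ^ 2 - 2 * a * f x) + a ^ 2 := fun x => by ring
    simp_rw [h2]
    have h3 : Integrable (fun x => 2 * a * f x) (mu ρ) := hf1.const_mul _
    have h4 : Integrable (fun x => f x ^ 2 - 2 * a * f x) (mu ρ) := hf2.sub h3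
    rw [integral_add h4 (integrable_const _), integral_sub hf2 h3, integral_const_mul, ← ha]
    simp
    ring
  rw [hvar]
  simpa using hfin

end Pool.Agent.H888R2.KB
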