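import Pool.Agent.H888R2.KT.N9a
import Pool.Agent.H888R2.KT.N6b
import Pool.Agent.H888R2.KT.N8

/-!
# From Lipschitz functions to bounded functions: `(Var u)² ≤ 8 D E ‖∇ u‖²` for `|u| ≤ 1`
-/

set_option autoImplicit false

namespace Pool.Agent.H888R2.KB

open MeasureTheory Set Matrix Pool.Agent.H888R2.KC Pool.Agent.H888R2.KT
open scoped ENNReal InnerProductSpace
open Pool.Agent.H212R2.KLS (mu Bdd)

namespace N1x

variable {κ : Type} [Fintype κ] {ρ : EuclideanSpace ℝ κ → ℝ}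

theorem pst_le (hρ : LC ρ) (h : ℝ) (hh : 0 < h) (u : EuclideanSpace ℝ κ → ℝ)
    (hu : Continuous u) (hb : ∀ x, |u x| ≤ 1) (y : EuclideanSpace ℝ κ) : |pst h ρ u y| ≤ 1 := by
  have hz := (zz_pos hρ h hh y).1
  unfold pst
  rw [abs_div, abs_of_pos hz, div_le_one hz]
  have i1 := (zz_pos hρ h hh y).2 u hu
  have i2 : Integrable (fun x => Real.exp (-(‖x - y‖ ^ 2 / (2 * h)))) (mu ρ) := by
    have := (zz_pos hρ h hh y).2 (fun _ => 1) continuous_const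
    simpa only [one_mul] using this
  rw [← Real.norm_eq_abs]
  refine (norm_integral_le_integral_norm _).trans ?_
  unfold zz
  refine integral_mono i1.norm i2 fun x => ?_
  show ‖u x * Real.exp (-(‖x - y‖ ^ 2 / (2 * h)))‖ ≤ Real.exp (-(‖x - y‖ ^ 2 / (2 * h)))
  rw [norm_mul, Real.norm_eq_abs, Real.norm_eq_abs, abs_of_pos (Real.exp_pos _)]
  exact mul_le_of_le_one_left (Real.exp_pos _).le (hb x)

theorem gs_le (h : ℝ) (hh : 0 < h) (φ : EuclideanSpace ℝ κ → ℝ)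
    (hφ : Continuous φ) (h0 : ∀ y, 0 ≤ φ y) (hb : ∀ y, φ y ≤ 1) (x : EuclideanSpace ℝ κ) :
    gs h φ x ≤ 1 := by
  have hg := gc_pos (κ := κ) h hh
  unfold gs
  rw [div_le_one hg.1, ← hg.2.1 x]
  have i2 := hg.2.2.1 x
  refine integral_mono (Integrable.mono' i2 ?_ ?_) i2 fun y => ?_
  · exact (by fun_prop : Continuous fun y => φ y * Real.exp (-(‖x - y‖ ^ 2 / (2 * h)))).aestronglyMeasurable
  · refine Filter.Eventually.of_forall fun y => ?_
    rw [Real.norm_eq_abs, abs_mul, abs_of_nonneg (h0 y), abs_of_pos (Real.exp_pos _)]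
    exact mul_le_of_le_one_left (Real.exp_pos _).le (hb y)
  · exact mul_le_of_le_one_left (Real.exp_pos _).le (hb y)

theorem step (hρ : LC ρ) (D : ℝ)
    (hlip : ∀ f : EuclideanSpace ℝ κ → ℝ, ContDiff ℝ 1 f → (∀ x, ‖fderiv ℝ f x‖ ≤ 1) →
      ∫ x, f x ^ 2 ∂(mu ρ) - (∫ x, f x ∂(mu ρ)) ^ 2 ≤ D)
    (u : EuclideanSpace ℝ κ → ℝ) (hu : ContDiff ℝ 1 u) (hb : ∀ x, |u x| ≤ 1) (h : ℝ)
    (hh : 0 < h) :
    ∫ x, u x ^ 2 ∂(mu ρ) - (∫ x, u x ∂(mu ρ)) ^ 2 ≤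
      D / h + 2 * h * ∫ x, ‖fderiv ℝ u x‖ ^ 2 ∂(mu ρ) := by
  obtain ⟨hc, B, hB⟩ := pst_smooth hρ h hh u hu.continuous
  set φ := pst h ρ u with hφ
  have hc1 : ContDiff ℝ 1 φ := hc.of_le (by norm_num)
  have hφ1 : ∀ y, |φ y| ≤ 1 := fun y => pst_le hρ h hh u hu.continuous hb y
  set v := gs h φ with hv
  have hv1 : ContDiff ℝ 1 v := (gs_deriv h hh φ hc1 B (fun y => (hB y).1) (fun y => (hB y).2.1)).1
  have hg : ∀ x, h * ‖fderiv ℝ v x‖ ^ 2 ≤ 1 := by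
    intro x
    have h2 := gs_bessel h hh φ hc1 B (fun y => (hB y).1) (fun y => (hB y).2.1) x
    have h3 := gs_le h hh (fun y => φ y ^ 2) (hc1.continuous.pow 2) (fun y => sq_nonneg _)
      (fun y => by
        have := hφ1 y
        rw [← sq_abs]
        nlinarith [abs_nonneg (φ y)]) x
    nlinarith [sq_nonneg (gs h φ x)]
  have hs : 0 < Real.sqrt h := Real.sqrt_pos.2 hh
  have hsq : Real.sqrt h ^ 2 = h := Real.sq_sqrt hh.le
  have h4 := hlip (fun x => Real.sqrt h * v x) (contDiff_const.mul hv1) (fun x => by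
    have h5 : fderiv ℝ (fun x => Real.sqrt h * v x) x = Real.sqrt h • fderiv ℝ v x := by
      have := (hv1.differentiable one_ne_zero x).hasFDerivAt.const_mul (Real.sqrt h)
      exact this.fderiv
    rw [h5, norm_smul, Real.norm_eq_abs, abs_of_pos hs]
    have h6 := hg x
    have h7 : (Real.sqrt h * ‖fderiv ℝ v x‖) ^ 2 ≤ 1 ^ 2 := by rw [mul_pow, hsq, one_pow]; exact h6
    exact le_of_sq_le_sq h7 zero_le_one)
  have h8 : ∫ x, (Real.sqrt h * v x) ^ 2 ∂(mu ρ) = h * ∫ x, v x ^ 2 ∂(mu ρ) := by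
    rw [← integral_const_mul]
    refine integral_congr_ae (Filter.Eventually.of_forall fun x => ?_)
    show (Real.sqrt h * v x) ^ 2 = h * v x ^ 2
    rw [mul_pow, hsq]
  have h9 : (∫ x, Real.sqrt h * v x ∂(mu ρ)) ^ 2 = h * (∫ x, v x ∂(mu ρ)) ^ 2 := by
    rw [integral_const_mul, mul_pow, hsq]
  rw [h8, h9] at h4
  obtain ⟨h10, h11⟩ := l2step hρ h hh u hu
  rw [← hφ, ← hv] at h10 h11
  have h12 : ∫ x, v x ^ 2 ∂(mu ρ) - (∫ x, v x ∂(mu ρ)) ^ 2 ≤ D / h := by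
    rw [le_div_iff₀ hh]; linarith
  rw [← h10]
  linarith

end N1x

open N1x in
theorem nash_lip {κ : Type} [Fintype κ] {ρ : EuclideanSpace ℝ κ → ℝ} (hρ : LC ρ)
    (h1 : mu ρ univ = 1) (D : ℝ) (hD : 0 < D)
    (hlip : ∀ f : EuclideanSpace ℝ κ → ℝ, ContDiff ℝ 1 f → (∀ x, ‖fderiv ℝ f x‖ ≤ 1) →
      ∫ x, f x ^ 2 ∂(mu ρ) - (∫ x, f x ∂(mu ρ)) ^ 2 ≤ D)
    (u : EuclideanSpace ℝ κ → ℝ) (hu : ContDiff ℝ 1 u) (hb : ∀ x, |u x| ≤ 1) :
    (∫ x, u x ^ 2 ∂(mu ρ) - (∫ x, u x ∂(mu ρ)) ^ 2) ^ 2 ≤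
      8 * D * ∫ x, ‖fderiv ℝ u x‖ ^ 2 ∂(mu ρ) := by
  set V := ∫ x, u x ^ 2 ∂(mu ρ) - (∫ x, u x ∂(mu ρ)) ^ 2 with hV
  set g := ∫ x, ‖fderiv ℝ u x‖ ^ 2 ∂(mu ρ) with hg
  have hg0 : 0 ≤ g := integral_nonneg fun x => sq_nonneg _
  have hst := fun h (hh : 0 < h) => step hρ D hlip u hu hb h hh
  have hP : IsProbabilityMeasure (mu ρ) := ⟨h1⟩
  have hV0 : 0 ≤ V := by
    have hL : MemLp u 2 (mu ρ) := by
      refine MemLp.of_bound hu.continuous.aestronglyMeasurable 1 (Filter.Eventually.of_forall fun x => ?_)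
      rw [Real.norm_eq_abs]; exact hb x
    have := ProbabilityTheory.variance_nonneg u (mu ρ)
    rw [ProbabilityTheory.variance_eq_sub hL] at this
    simpa [hV] using this
  rcases hg0.eq_or_lt with h0 | h0
  · have h2 : V ≤ 0 := by
      refine le_of_forall_pos_le_add fun ε hε => ?_
      have := hst (D / ε) (by positivity)
      rw [← hV, ← hg, ← h0, mul_zero, add_zero, div_div_cancel₀ hD.ne'] at this
      linarith
    have h3 : V = 0 := le_antisymm h2 hV0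
    rw [h3, ← h0]; simp
  · set h := Real.sqrt (D / (2 * g)) with hh
    have hh0 : 0 < h := Real.sqrt_pos.2 (by positivity)
    have hh2 : h ^ 2 = D / (2 * g) := Real.sq_sqrt (by positivity)
    have h2 := hst h hh0
    have h3 : D / h = 2 * h * g := by
      rw [div_eq_iff hh0.ne']
      have : D = 2 * g * h ^ 2 := by rw [hh2]; field_simp
      rw [this]; ring
    have h4 : V ≤ 4 * h * g := by
      calc V ≤ D / h + 2 * h * g := h2
        _ = 4 * h * g := by rw [h3]; ring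
    calc V ^ 2 ≤ (4 * h * g) ^ 2 := by gcongr
      _ = 16 * h ^ 2 * g ^ 2 := by ring
      _ = 8 * D * g := by rw [hh2]; field_simp; ring

end Pool.Agent.H888R2.KB
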