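import Pool.Agent.H888R2.KB.Defs

/-!
# KLS for blocks of matrices invariant under independent rotations: all statements
-/

set_option autoImplicit false

namespace Pool.Agent.H888R2.KB.Stubs

open MeasureTheory Set Matrix Pool.Agent.H888R2.KC Pool.Agent.H888R2.KT Pool.Agent.H888R2.KB
open scoped ENNReal InnerProductSpace
open Pool.Agent.H212R2.KLS (mu Bdd ev E V OpLe lm Dens toM ofM mv)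

/-! ## A: one block -/

-- A1
theorem alg (m n : ℕ) (hm : 3 ≤ m) : ∃ (c : KI m → KI m → KI m → ℝ) (κ : ℝ), (m : ℝ) - 2 ≤ κ ∧
    (∀ i j k, c j i k = - c i j k) ∧ (∀ i j k, c i k j = - c i j k) ∧
    (∀ i j, ∀ x : E m n, lml (Km ℝ i) (lml (Km ℝ j) x) - lml (Km ℝ j) (lml (Km ℝ i) x) =
      ∑ k, c i j k • lml (Km ℝ k) x) ∧
    (∀ k, ∀ x : E m n, ∑ l, (∑ i, ∑ j, c i j k * c i j l) • lml (Km ℝ l) x =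
      κ • lml (Km ℝ k) x) := sorry

-- A2
theorem cas {m n : ℕ} (hm : 1 ≤ m) (w : E m n) :
    ∑ k : KI m, ‖lml (Km ℝ k) w‖ ^ 2 = ((m : ℝ) - 1) / 2 * ‖w‖ ^ 2 := sorry

-- A3
theorem lamb {m n : ℕ} (r : ℝ) (hr : 0 ≤ r) (x : E m n) (hx : OpLe r x) (w : E m n) :
    ∑ k : KI m, ⟪w, lml (Km ℝ k) x⟫_ℝ ^ 2 ≤ r ^ 2 * ‖w‖ ^ 2 := sorry

-- A4
theorem lml_skew {m n : ℕ} (K : Matrix (Fin m) (Fin m) ℝ) (hK : Kᵀ = -K) (x y : E m n) :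
    ⟪lml K x, y⟫_ℝ = - ⟪x, lml K y⟫_ℝ := sorry

theorem lml_mul {m n : ℕ} (K L : Matrix (Fin m) (Fin m) ℝ) (x : E m n) :
    lml K (lml L x) = lml (K * L) x := sorry

theorem lml_one {m n : ℕ} (x : E m n) : lml (1 : Matrix (Fin m) (Fin m) ℝ) x = x := sorry

theorem lml_add {m n : ℕ} (K L : Matrix (Fin m) (Fin m) ℝ) (x : E m n) :
    lml (K + L) x = lml K x + lml L x := sorry

theorem lml_smul {m n : ℕ} (c : ℝ) (K : Matrix (Fin m) (Fin m) ℝ) (x : E m n) :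
    lml (c • K) x = c • lml K x := sorry

theorem lml_norm {m n : ℕ} (g : Matrix (Fin m) (Fin m) ℝ)
    (hg : g ∈ Matrix.orthogonalGroup (Fin m) ℝ) (x : E m n) : ‖lml g x‖ = ‖x‖ := sorry

/-! ## B: blocks -/

section

variable {b : ℕ} {ι : Type} [Fintype ι]

-- B0
theorem cp_bk (i j : Fin b) (A : EuclideanSpace ℝ ι →ₗ[ℝ] EuclideanSpace ℝ ι)
    (x : EuclideanSpace ℝ (Fin b × ι)) : cp j (bk i A x) = if j = i then A (cp i x) else 0 := sorry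

theorem cp_ap (i j : Fin b) (A : EuclideanSpace ℝ ι →ₗ[ℝ] EuclideanSpace ℝ ι)
    (x : EuclideanSpace ℝ (Fin b × ι)) : cp j (ap i A x) = if j = i then A (cp i x) else cp j x :=
  sorry

-- B1
theorem block_fam {κ₁ : Type} [Fintype κ₁] (A : κ₁ → (EuclideanSpace ℝ ι →ₗ[ℝ] EuclideanSpace ℝ ι))
    (hA : ∀ k x y, ⟪A k x, y⟫_ℝ = - ⟪x, A k y⟫_ℝ)
    (c : κ₁ → κ₁ → κ₁ → ℝ) (hc1 : ∀ i j k, c j i k = - c i j k) (hc2 : ∀ i j k, c i k j = - c i j k)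
    (hcomm : ∀ i j x, A i (A j x) - A j (A i x) = ∑ k, c i j k • A k x) (κ0 : ℝ)
    (hkil : ∀ k x, ∑ l, (∑ i, ∑ j, c i j k * c i j l) • A l x = κ0 • A k x) :
    (∀ (k : Fin b × κ₁) (x y : EuclideanSpace ℝ (Fin b × ι)),
      ⟪bk k.1 (A k.2) x, y⟫_ℝ = - ⟪x, bk k.1 (A k.2) y⟫_ℝ) ∧
    ∃ c' : Fin b × κ₁ → Fin b × κ₁ → Fin b × κ₁ → ℝ,
      (∀ i j k, c' j i k = - c' i j k) ∧ (∀ i j k, c' i k j = - c' i j k) ∧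
      (∀ i j, ∀ x : EuclideanSpace ℝ (Fin b × ι), bk i.1 (A i.2) (bk j.1 (A j.2) x) -
        bk j.1 (A j.2) (bk i.1 (A i.2) x) = ∑ k, c' i j k • bk k.1 (A k.2) x) ∧
      (∀ k, ∀ x : EuclideanSpace ℝ (Fin b × ι),
        ∑ l, (∑ i, ∑ j, c' i j k * c' i j l) • bk l.1 (A l.2) x = κ0 • bk k.1 (A k.2) x) := sorry

-- B2
theorem block_cas {κ₁ : Type} [Fintype κ₁]
    (A : κ₁ → (EuclideanSpace ℝ ι →ₗ[ℝ] EuclideanSpace ℝ ι)) (cV : ℝ)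
    (hcas : ∀ w, cV * ‖w‖ ^ 2 ≤ ∑ k, ‖A k w‖ ^ 2) (w : EuclideanSpace ℝ (Fin b × ι)) :
    cV * ‖w‖ ^ 2 ≤ ∑ k : Fin b × κ₁, ‖bk k.1 (A k.2) w‖ ^ 2 := sorry

theorem block_lam {κ₁ : Type} [Fintype κ₁]
    (A : κ₁ → (EuclideanSpace ℝ ι →ₗ[ℝ] EuclideanSpace ℝ ι)) (L : ℝ)
    (x : EuclideanSpace ℝ (Fin b × ι))
    (hL : ∀ (i : Fin b) (w : EuclideanSpace ℝ ι), ∑ k, ⟪w, A k (cp i x)⟫_ℝ ^ 2 ≤ L * ‖w‖ ^ 2)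
    (w : EuclideanSpace ℝ (Fin b × ι)) :
    ∑ k : Fin b × κ₁, ⟪w, bk k.1 (A k.2) x⟫_ℝ ^ 2 ≤ L * ‖w‖ ^ 2 := sorry

end

/-! ## G: the group -/

section

variable {b m n : ℕ}

-- G1
theorem ap_iso (i : Fin b) (g : Matrix (Fin m) (Fin m) ℝ)
    (hg : g ∈ Matrix.orthogonalGroup (Fin m) ℝ) :
    ∃ e : EuclideanSpace ℝ (Fin b × (Fin m × Fin n)) ≃ₗᵢ[ℝ]
      EuclideanSpace ℝ (Fin b × (Fin m × Fin n)), ∀ x, e x = ap i (lml g) x := sorry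

theorem ap_mp (i : Fin b) (g : Matrix (Fin m) (Fin m) ℝ)
    (hg : g ∈ Matrix.orthogonalGroup (Fin m) ℝ) :
    MeasurePreserving (ap i (lml (n := n) g))
      (volume : Measure (EuclideanSpace ℝ (Fin b × (Fin m × Fin n)))) volume := sorry

-- G2
theorem cay_orth (K : Matrix (Fin m) (Fin m) ℝ) (hK : Kᵀ = -K) :
    cay K ∈ Matrix.orthogonalGroup (Fin m) ℝ := sorry

theorem dl_int (μ : Measure (EuclideanSpace ℝ (Fin b × (Fin m × Fin n)))) [IsFiniteMeasure μ]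
    (hinv : ∀ i : Fin b, ∀ g ∈ Matrix.orthogonalGroup (Fin m) ℝ, μ.map (ap i (lml g)) = μ)
    (hb : ∃ R, μ (Metric.closedBall 0 R)ᶜ = 0) (i : Fin b) (K : Matrix (Fin m) (Fin m) ℝ)
    (hK : Kᵀ = -K) (p : MvPolynomial (Fin b × (Fin m × Fin n)) ℝ) :
    ∫ x, ev (dl (bk i (lml K)) p) x ∂μ = 0 := sorry

-- G3
theorem inv_of_dl (p : MvPolynomial (Fin b × (Fin m × Fin n)) ℝ) (i : Fin b)
    (hp : ∀ k : KI m, dl (bk i (lml (Km ℝ k))) p = 0) (K : Matrix (Fin m) (Fin m) ℝ)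
    (hK : Kᵀ = -K) (x : EuclideanSpace ℝ (Fin b × (Fin m × Fin n))) :
    ev p (ap i (lml (cay K)) x) = ev p x := sorry

-- G4
theorem fderiv_of_inv (v : EuclideanSpace ℝ (Fin b × (Fin m × Fin n)) → ℝ) (hv : ContDiff ℝ 1 v)
    (i : Fin b) (hi : ∀ K : Matrix (Fin m) (Fin m) ℝ, Kᵀ = -K → ∀ x, v (ap i (lml (cay K)) x) = v x)
    (K : Matrix (Fin m) (Fin m) ℝ) (hK : Kᵀ = -K)
    (x : EuclideanSpace ℝ (Fin b × (Fin m × Fin n))) : fderiv ℝ v x (bk i (lml K) x) = 0 := sorry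

/-! ## D: densities -/

-- D1
theorem DB.basic {ρ : EuclideanSpace ℝ (Fin b × (Fin m × Fin n)) → ℝ} (hρ : DB ρ) :
    (∀ i : Fin b, ∀ g ∈ Matrix.orthogonalGroup (Fin m) ℝ, (mu ρ).map (ap i (lml g)) = mu ρ) ∧
    (∀ r, DB ({x | ∀ i, OpLe r (cp i x)}.indicator ρ)) ∧
    (∀ r, DB ({x | ‖x‖ ≤ r}.indicator ρ)) ∧
    (∀ c, 0 ≤ c → DB (fun x => c * ρ x)) := sorry

-- D2
theorem local_poincare (hm : 3 ≤ m) {ρ : EuclideanSpace ℝ (Fin b × (Fin m × Fin n)) → ℝ}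
    (hρ : DB ρ) (hb : Bdd ρ) (hfin : mu ρ univ ≠ ⊤) (r : ℝ) (hr : 0 ≤ r)
    (hs : ∀ x, ¬ (∀ i, OpLe r (cp i x)) → ρ x = 0)
    (f : EuclideanSpace ℝ (Fin b × (Fin m × Fin n)) → ℝ) (hf : ContDiff ℝ 1 f) :
    ∃ c : ℝ, ∫ x, (f x - c) ^ 2 ∂(mu ρ) ≤ 24 * r ^ 2 / m * ∫ x, ‖fderiv ℝ f x‖ ^ 2 ∂(mu ρ) := sorry

/-! ## T: tails -/

-- T1
theorem marginal {ρ : EuclideanSpace ℝ (Fin b × (Fin m × Fin n)) → ℝ} (hρ : DB ρ) (hb : Bdd ρ)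
    (h1 : mu ρ univ = 1) (i : Fin b) :
    ∃ ρ' : E m n → ℝ, Dens m n ρ' ∧ Bdd ρ' ∧ (mu ρ).map (cp i) = mu ρ' := sorry

-- T2
theorem op_tail (hm : 1 ≤ m) (hn : 1 ≤ n) (hnm : n ≤ m)
    {ρ : EuclideanSpace ℝ (Fin b × (Fin m × Fin n)) → ℝ} (hρ : DB ρ) (hb : Bdd ρ)
    (h1 : mu ρ univ = 1) (s : ℝ) (hs : 0 < s)
    (hmom : ∀ θ, ∫ x, ⟪θ, x⟫_ℝ ^ 2 ∂(mu ρ) ≤ s * ‖θ‖ ^ 2) (t : ℝ) :
    mu ρ {x | ¬ ∀ i, OpLe (20 * t * Real.sqrt (m * s)) (cp i x)} ≤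
      b * ENNReal.ofReal (Real.exp (m * (4 - t / 2))) := sorry

-- T3
theorem fourth : ∃ C : ℝ, 0 < C ∧ ∀ {κ : Type} [Fintype κ] (ρ : EuclideanSpace ℝ κ → ℝ), LC ρ →
    mu ρ univ = 1 → ∀ σ : ℝ, 0 < σ → ∫ x, ‖x‖ ^ 2 ∂(mu ρ) ≤ σ ^ 2 →
    ∫ x, ‖x‖ ^ 4 ∂(mu ρ) ≤ C * σ ^ 4 := sorry

-- T4
theorem second (s : ℝ) (hs : 0 < s) {ρ : EuclideanSpace ℝ (Fin b × (Fin m × Fin n)) → ℝ}
    (hb : Bdd ρ) (h1 : mu ρ univ = 1)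
    (hmom : ∀ θ, ∫ x, ⟪θ, x⟫_ℝ ^ 2 ∂(mu ρ) ≤ s * ‖θ‖ ^ 2) :
    ∫ x, ‖x‖ ^ 2 ∂(mu ρ) ≤ s * (b * (m * n)) := sorry

end

/-! ## F: assembly -/

-- F0
theorem glue0 {F : Type} [NormedAddCommGroup F] [InnerProductSpace ℝ F] [FiniteDimensional ℝ F]
    [MeasurableSpace F] [BorelSpace F] (μ : Measure F) [IsProbabilityMeasure μ]
    (hb : ∃ R, μ (Metric.closedBall 0 R)ᶜ = 0) (A : Set F) (hA : MeasurableSet A)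
    (f : F → ℝ) (hf : ContDiff ℝ 1 f) (hf1 : ∀ x, ‖fderiv ℝ f x‖ ≤ 1) (c D M Q ε : ℝ)
    (hD : 0 ≤ D) (hM : 0 ≤ M) (hQ : 0 ≤ Q) (hε0 : 0 ≤ ε) (hε : ε ≤ 1 / 2)
    (hAε : μ Aᶜ ≤ ENNReal.ofReal (ε ^ 2)) (h2 : ∫ x, ‖x‖ ^ 2 ∂μ ≤ M) (h4 : ∫ x, ‖x‖ ^ 4 ∂μ ≤ Q ^ 2)
    (hloc : ∫ x in A, (f x - c) ^ 2 ∂μ ≤ D) :
    ∫ x, (f x - c) ^ 2 ∂μ ≤ 9 * D + 8 * M * ε ^ 2 + 2 * Q * ε := sorry

-- F1
theorem core : ∃ C : ℝ, 0 < C ∧ ∀ {b m n : ℕ}, 1 ≤ b → 3 ≤ m → 1 ≤ n → n ≤ m →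
    ∀ ρ : EuclideanSpace ℝ (Fin b × (Fin m × Fin n)) → ℝ, DB ρ → Bdd ρ → mu ρ univ = 1 →
    ∀ s : ℝ, 0 < s → (∀ θ, ∫ x, ⟪θ, x⟫_ℝ ^ 2 ∂(mu ρ) ≤ s * ‖θ‖ ^ 2) →
    ∀ f : EuclideanSpace ℝ (Fin b × (Fin m × Fin n)) → ℝ, ContDiff ℝ 1 f →
    (∀ x, ‖fderiv ℝ f x‖ ≤ 1) →
    ∫ x, f x ^ 2 ∂(mu ρ) - (∫ x, f x ∂(mu ρ)) ^ 2 ≤ C * fb b m ^ 2 * s := sorry

-- F2
theorem mainb : ∃ C : ℝ, 0 < C ∧ ∀ {b m n : ℕ}, 1 ≤ b → 3 ≤ m → 1 ≤ n → n ≤ m →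
    ∀ ρ : EuclideanSpace ℝ (Fin b × (Fin m × Fin n)) → ℝ, DB ρ → mu ρ univ = 1 →
    ∀ s : ℝ, 0 < s → (∀ θ : EuclideanSpace ℝ (Fin b × (Fin m × Fin n)),
      ∫⁻ x, ENNReal.ofReal (⟪θ, x⟫_ℝ ^ 2) ∂(mu ρ) ≤ ENNReal.ofReal (s * ‖θ‖ ^ 2)) →
    ∀ f : EuclideanSpace ℝ (Fin b × (Fin m × Fin n)) → ℝ, ContDiff ℝ 1 f →
    (∀ x, ‖fderiv ℝ f x‖ ≤ 1) →
    MemLp f 2 (mu ρ) ∧
      ∫ x, (f x - ∫ y, f y ∂(mu ρ)) ^ 2 ∂(mu ρ) ≤ C * fb b m ^ 2 * s := sorry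

end Pool.Agent.H888R2.KB.Stubs
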